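import Pool.Agent.P.MP_a60a76_nt.Kron
import Pool.Agent.P.MP_a60a76_nt.DataA
import Pool.Agent.P.MP_a60a76_nt.DataB

/-!
The polynomial identities and congruences behind the 19-congruence.
-/

namespace Pool.Agent.P.MP_a60a76_nt

/-- Coefficients of the derivative. -/
def dl : ℕ → List GaussianInt → List GaussianInt
  | _, [] => []
  | k, c :: l => ⟨k * c.re, k * c.im⟩ :: dl (k + 1) l

/-- The derivative of the division polynomial. -/
def dL : List GaussianInt := dl 1 gL.tail

/-- The coefficient `a₂` of the first curve. -/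
def A2 : GaussianInt := ⟨-1, -1⟩
/-- The coefficient `a₄` of the first curve. -/
def A4 : GaussianInt := ⟨184437, -230626⟩
/-- The coefficient `a₆` of the first curve. -/
def A6 : GaussianInt := ⟨60363049, 13957955⟩
/-- The coefficient `a₂` of the second curve. -/
def B2 : GaussianInt := ⟨-1, 1⟩
/-- The coefficient `a₄` of the second curve. -/
def B4 : GaussianInt := ⟨184437, 230626⟩
/-- The coefficient `a₆` of the second curve. -/
def B6 : GaussianInt := ⟨60363049, -13957955⟩

/-- The homogeneous cubic. -/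
def eCub (a2 a4 a6 : GaussianInt) (X Z : Ex) : Ex :=
  X * X * (X + .cst a2 * Z) + Z * Z * (.cst a4 * X + .cst a6 * Z)

/-- The homogeneous quartic of the duplication formula. -/
def eQ4 (a2 a4 a6 : GaussianInt) (X Z : Ex) : Ex :=
  (X * X - .cst a4 * (Z * Z)) * (X * X - .cst a4 * (Z * Z)) -
    .cst 4 * .cst a6 * (Z * Z * (Z * (.cst 2 * X + .cst a2 * Z)))

/-- The differential addition relation with common denominator `d`. -/
def eAdd (a2 a4 a6 : GaussianInt) (u v w z d : Ex) : Ex :=
  (w + z) * ((u - v) * (u - v)) - (.cst 2 * ((u * v + .cst a4 * (d * d)) * (u + v)) +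
    .cst 4 * (d * (.cst a2 * (u * v) + .cst a6 * (d * d))))

/-- The numerator of the differential addition formula. -/
def eAddX (a2 a4 a6 : GaussianInt) (x X Z X' Z' : Ex) : Ex :=
  .cst 2 * ((X * X' + .cst a4 * (Z * Z')) * (X * Z' + X' * Z)) +
    .cst 4 * ((Z * Z') * (.cst a2 * (X * X') + .cst a6 * (Z * Z'))) -
    x * ((X * Z' - X' * Z) * (X * Z' - X' * Z))

/-- The variable. -/
def xL1 : List GaussianInt := [⟨0, 0⟩, ⟨1, 0⟩]
/-- The constant one. -/
def zL1 : List GaussianInt := [⟨1, 0⟩]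

/-- The check of a duplication step. -/
def chkD (X Z X' Z' : List GaussianInt) : Bool :=
  chk 1000 0 [X, Z, X'] [] (eQ4 A2 A4 A6 (.var 0) (.var 1) - .var 2) &&
    chk 1000 0 [X, Z, Z'] [] (.cst 4 * (.var 1 * eCub A2 A4 A6 (.var 0) (.var 1)) - .var 2)

/-- The check of an addition step. -/
def chkS (X Z X' Z' X'' Z'' : List GaussianInt) : Bool :=
  chk 1000 0 [xL1, X, Z, X', Z', X''] []
      (eAddX A2 A4 A6 (.var 0) (.var 1) (.var 2) (.var 3) (.var 4) - .var 5) &&
    chk 1000 0 [X, Z, X', Z', Z''] []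
      ((.var 0 * .var 3 - .var 2 * .var 1) * (.var 0 * .var 3 - .var 2 * .var 1) - .var 4)

theorem chk_2 : chkD xL1 zL1 xL2 zL2 = true := by decide +kernel
theorem chk_3 : chkS xL2 zL2 xL1 zL1 xL3 zL3 = true := by decide +kernel
theorem chk_4 : chkD xL2 zL2 xL4 zL4 = true := by decide +kernel
theorem chk_5 : chkS xL3 zL3 xL2 zL2 xL5 zL5 = true := by decide +kernel
theorem chk_9 : chkS xL5 zL5 xL4 zL4 xL9 zL9 = true := by decide +kernel
theorem chk_10 : chkD xL5 zL5 xL10 zL10 = true := by decide +kernel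
theorem chk_19 : chk 1700 0 [xL9, zL9, xL10, zL10, gL] []
    (.var 0 * .var 3 - .var 2 * .var 1 - .var 4) = true := by decide +kernel

theorem chk_curve : chk 4900 364 [xL1, zL1, nL1, dL, mL] gL
    (.var 4 * .var 4 * .var 3 -
      eCub A2 A4 A6 (.var 0) (.var 1) * eCub B2 B4 B6 (.var 2) (.var 3)) = true := by
  decide +kernel

theorem chk_dbl : chk 6500 540 [nL1, dL, nL2] gL
    (.cst 4 * (.var 2 * eCub B2 B4 B6 (.var 0) (.var 1)) - eQ4 B2 B4 B6 (.var 0) (.var 1)) =
      true := by
  decide +kernel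

/-- The check of a differential addition modulo the division polynomial. -/
def chkA (u v w z : List GaussianInt) : Bool :=
  chk 4900 364 [u, v, w, z, dL] gL (eAdd B2 B4 B6 (.var 0) (.var 1) (.var 2) (.var 3) (.var 4))

theorem chk_a3 : chkA nL2 nL1 nL3 nL1 = true := by decide +kernel
theorem chk_a5 : chkA nL3 nL2 nL5 nL1 = true := by decide +kernel
theorem chk_a8 : chkA nL5 nL3 nL8 nL2 = true := by decide +kernel
theorem chk_a11 : chkA nL8 nL3 nL8 nL5 = true := by decide +kernel

end Pool.Agent.P.MP_a60a76_nt
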