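import Mathlib

/-!
Polynomial congruences over the Gaussian integers, checked by Kronecker substitution.
-/

namespace Pool.Agent.P.MP_a60a76_nt

open Polynomial

/-- Horner evaluation of a coefficient list. -/
def ev {R : Type} [CommRing R] (h : GaussianInt →+* R) (x : R) : List GaussianInt → R
  | [] => 0
  | c :: l => h c + x * ev h x l

theorem map_ev {R S : Type} [CommRing R] [CommRing S] (f : R →+* S) (h : GaussianInt →+* R)
    (x : R) (l : List GaussianInt) : f (ev h x l) = ev (f.comp h) (f x) l := by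
  induction l with
  | nil => simp [ev]
  | cons c l ih => simp [ev, ih]

/-- The sum of the absolute values of the coordinates. -/
def n1 (z : GaussianInt) : ℕ := z.re.natAbs + z.im.natAbs

theorem n1_add (z w : GaussianInt) : n1 (z + w) ≤ n1 z + n1 w := by
  simp only [n1, Zsqrtd.re_add, Zsqrtd.im_add]
  omega

theorem n1_neg (z : GaussianInt) : n1 (-z) = n1 z := by
  simp [n1]

theorem n1_mul (z w : GaussianInt) : n1 (z * w) ≤ n1 z * n1 w := by
  simp only [n1, Zsqrtd.re_mul, Zsqrtd.im_mul]
  have h1 := Int.natAbs_add_le (z.re * w.re) (-1 * z.im * w.im)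
  have h2 := Int.natAbs_add_le (z.re * w.im) (z.im * w.re)
  simp only [Int.natAbs_mul, Int.natAbs_neg, Int.natAbs_one, one_mul] at h1 h2
  nlinarith

theorem n1_eq_zero {z : GaussianInt} (h : n1 z = 0) : z = 0 := by
  simp only [n1] at h
  ext <;> simp <;> omega

/-- `P` is a sum of monomials with total coefficient size at most `b`. -/
inductive Bd : GaussianInt[X] → ℕ → Prop
  | mono (c : GaussianInt) (n b : ℕ) (h : n1 c ≤ b) : Bd (monomial n c) b
  | add {P Q : GaussianInt[X]} {a b c : ℕ} (hP : Bd P a) (hQ : Bd Q b) (h : a + b ≤ c) :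
      Bd (P + Q) c

theorem Bd.le {P : GaussianInt[X]} {a b : ℕ} (h : Bd P a) (hab : a ≤ b) : Bd P b := by
  cases h with
  | mono c n _ h => exact .mono c n b (h.trans hab)
  | add hP hQ h => exact .add hP hQ (h.trans hab)

theorem Bd.coeff {P : GaussianInt[X]} {b : ℕ} (h : Bd P b) (n : ℕ) : n1 (P.coeff n) ≤ b := by
  induction h with
  | mono c m b h =>
    rw [coeff_monomial]
    split_ifs
    · exact h
    · simp [n1]
  | add hP hQ h ihP ihQ =>
    rw [coeff_add]
    exact (n1_add _ _).trans (by omega)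

theorem Bd.neg {P : GaussianInt[X]} {b : ℕ} (h : Bd P b) : Bd (-P) b := by
  induction h with
  | mono c m b h =>
    rw [← monomial_neg]
    exact .mono _ _ _ (by rwa [n1_neg])
  | add hP hQ h ihP ihQ =>
    rw [neg_add]
    exact .add ihP ihQ h

theorem Bd.mul {P Q : GaussianInt[X]} {a b : ℕ} (hP : Bd P a) (hQ : Bd Q b) :
    Bd (P * Q) (a * b) := by
  induction hP with
  | mono c m a h =>
    induction hQ with
    | mono c' m' b h' =>
      rw [monomial_mul_monomial]
      exact .mono _ _ _ ((n1_mul _ _).trans (Nat.mul_le_mul h h'))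
    | add _ _ h' ihP ihQ =>
      rw [mul_add]
      exact .add ihP ihQ (by rw [← mul_add]; exact Nat.mul_le_mul_left _ h')
  | add _ _ h ihP ihQ =>
    rw [add_mul]
    exact .add ihP ihQ (by rw [← add_mul]; exact Nat.mul_le_mul_right _ h)

theorem Bd.C (c : GaussianInt) : Bd (C c) (n1 c) := .mono c 0 _ le_rfl

theorem Bd.X_mul {P : GaussianInt[X]} {b : ℕ} (h : Bd P b) : Bd (X * P) b := by
  have : Bd X 1 := .mono 1 1 1 (by simp [n1])
  simpa using this.mul h

theorem Bd.eq_zero {P : GaussianInt[X]} {b T : ℕ} (h : Bd P b) (hb : b < T)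
    (h0 : P.eval (T : GaussianInt) = 0) : P = 0 := by
  obtain ⟨Q, hQ⟩ := (dvd_iff_isRoot (p := P) (a := (T : GaussianInt))).2 h0
  by_contra hP
  have hQ0 : Q ≠ 0 := by
    rintro rfl
    exact hP (by simpa using hQ)
  have h1 := h.coeff Q.natTrailingDegree
  have h2 : P.coeff Q.natTrailingDegree = -((T : GaussianInt) * Q.trailingCoeff) := by
    rw [hQ, sub_mul, coeff_sub, coeff_C_mul]
    have : (X * Q).coeff Q.natTrailingDegree = 0 := by
      rcases hn : Q.natTrailingDegree with _ | n
      · simp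
      · rw [coeff_X_mul]
        exact coeff_eq_zero_of_lt_natTrailingDegree (by omega)
    rw [this, trailingCoeff]
    ring
  have h3 : Q.trailingCoeff ≠ 0 := by simpa using hQ0
  have h4 : n1 Q.trailingCoeff ≠ 0 := fun h => h3 (n1_eq_zero h)
  have h5 : n1 ((T : GaussianInt) * Q.trailingCoeff) = T * n1 Q.trailingCoeff := by
    simp [n1, Int.natAbs_mul, mul_add]
  rw [h2, n1_neg, h5] at h1
  have : T * 1 ≤ T * n1 Q.trailingCoeff := Nat.mul_le_mul_left _ (by omega)
  omega

/-- Strict evaluation of a natural number. -/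
def fN {α : Type} (n : ℕ) (k : ℕ → α) : α := Nat.casesOn n (k 0) fun m => k m.succ

theorem fN_eq {α : Type} (n : ℕ) (k : ℕ → α) : fN n k = k n := by cases n <;> rfl

/-- Strict evaluation of an integer. -/
def fI {α : Type} (z : ℤ) (k : ℤ → α) : α :=
  match z with
  | .ofNat n => fN n fun n => k (.ofNat n)
  | .negSucc n => fN n fun n => k (.negSucc n)

theorem fI_eq {α : Type} (z : ℤ) (k : ℤ → α) : fI z k = k z := by
  cases z <;> simp [fI, fN_eq]

/-- Strict evaluation of a Gaussian integer. -/
def fG {α : Type} (z : GaussianInt) (k : GaussianInt → α) : α :=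
  match z with
  | ⟨a, b⟩ => fI a fun a => fI b fun b => k ⟨a, b⟩

theorem fG_eq {α : Type} (z : GaussianInt) (k : GaussianInt → α) : fG z k = k z := by
  cases z
  simp [fG, fI_eq]

/-- Strict evaluation of a list. -/
def fL {α : Type} : List GaussianInt → (List GaussianInt → α) → α
  | [], k => k []
  | z :: l, k => fG z fun z => fL l fun l => k (z :: l)

theorem fL_eq {α : Type} (l : List GaussianInt) (k : List GaussianInt → α) : fL l k = k l := by
  induction l generalizing k with
  | nil => rfl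
  | cons z l ih => simp [fL, fG_eq, ih]

/-- The value at `2 ^ B`. -/
def hor (B : ℕ) : List GaussianInt → GaussianInt
  | [] => ⟨0, 0⟩
  | c :: l => fG (hor B l) fun v => ⟨c.re + v.re <<< B, c.im + v.im <<< B⟩

theorem hor_eq (B : ℕ) (l : List GaussianInt) :
    hor B l = ev (RingHom.id _) ((2 ^ B : ℕ) : GaussianInt) l := by
  induction l with
  | nil => rfl
  | cons c l ih =>
    rw [hor, fG_eq, ih, ev]
    ext <;> simp only [Int.shiftLeft_eq', RingHom.id_apply, Zsqrtd.re_add, Zsqrtd.im_add,
      Zsqrtd.re_mul, Zsqrtd.im_mul, Zsqrtd.re_natCast, Zsqrtd.im_natCast] <;> ring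

/-- The total size of a coefficient list. -/
def lsz : List GaussianInt → ℕ
  | [] => 0
  | c :: l => n1 c + lsz l

theorem bd_ev (l : List GaussianInt) : Bd (ev Polynomial.C X l) (lsz l) := by
  induction l with
  | nil => simpa [ev, lsz, n1] using Bd.C 0
  | cons c l ih => exact .add (Bd.C c) ih.X_mul le_rfl

/-- The sum of the absolute values of the balanced digits in base `2 ^ B`. -/
def dsum (B : ℕ) : ℕ → ℕ → ℕ
  | 0, n => n
  | f + 1, n => fN (n >>> B) fun q => fN (n - q <<< B) fun r =>
      bif Nat.blt r (2 ^ (B - 1)) then r + dsum B f q else (2 ^ B - r) + dsum B f (q + 1)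

theorem dsum_spec (B f n : ℕ) : ∃ Q : GaussianInt[X],
    Q.eval ((2 ^ B : ℕ) : GaussianInt) = n ∧ Bd Q (dsum B f n) := by
  induction f generalizing n with
  | zero => exact ⟨C n, by simp, (Bd.C _).le (by simp [n1, dsum])⟩
  | succ f ih =>
    rw [dsum, fN_eq, fN_eq, Nat.shiftRight_eq_div_pow, Nat.shiftLeft_eq]
    have h1 := Nat.div_add_mod n (2 ^ B)
    have h2 := Nat.mod_lt n (Nat.two_pow_pos B)
    have h3 : n - n / 2 ^ B * 2 ^ B = n % 2 ^ B := by
      rw [mul_comm] at h1
      omega
    rw [h3]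
    generalize n / 2 ^ B = q at *
    generalize n % 2 ^ B = r at *
    generalize 2 ^ B = T at *
    subst h1
    cases Nat.blt r (2 ^ (B - 1)) with
    | true =>
      obtain ⟨Q, hQ, hb⟩ := ih q
      refine ⟨C (r : GaussianInt) + X * Q, ?_, .add (Bd.C _) hb.X_mul ?_⟩
      · simp only [eval_add, eval_C, eval_mul, eval_X, hQ]
        push_cast
        ring
      · simp [n1]
    | false =>
      obtain ⟨Q, hQ, hb⟩ := ih (q + 1)
      refine ⟨-C ((T - r : ℕ) : GaussianInt) + X * Q, ?_, .add (Bd.C _).neg hb.X_mul ?_⟩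
      · simp only [eval_add, eval_neg, eval_C, eval_mul, eval_X, hQ]
        push_cast [Nat.cast_sub h2.le]
        ring
      · simp only [n1, Zsqrtd.re_natCast, Zsqrtd.im_natCast, Int.natAbs_natCast, Int.natAbs_zero,
          cond_false]
        omega

theorem dsum_int (B f : ℕ) (z : ℤ) : ∃ Q : GaussianInt[X],
    Q.eval ((2 ^ B : ℕ) : GaussianInt) = z ∧ Bd Q (dsum B f z.natAbs) := by
  obtain ⟨Q, hQ, hb⟩ := dsum_spec B f z.natAbs
  rcases Int.natAbs_eq z with h | h
  · refine ⟨Q, ?_, hb⟩
    rw [hQ]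
    conv_rhs => rw [h]
    exact (Int.cast_natCast _).symm
  · refine ⟨-Q, ?_, hb.neg⟩
    rw [eval_neg, hQ]
    conv_rhs => rw [h]
    rw [Int.cast_neg, Int.cast_natCast]

theorem dsum_gauss (B f : ℕ) (z : GaussianInt) : ∃ Q : GaussianInt[X],
    Q.eval ((2 ^ B : ℕ) : GaussianInt) = z ∧
      Bd Q (dsum B f z.re.natAbs + dsum B f z.im.natAbs) := by
  obtain ⟨P, hP, hb⟩ := dsum_int B f z.re
  obtain ⟨Q, hQ, hc⟩ := dsum_int B f z.im
  refine ⟨P + C Zsqrtd.sqrtd * Q, ?_, .add hb ((Bd.C _).mul hc) (by simp [n1])⟩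
  rw [eval_add, eval_mul, eval_C, hP, hQ]
  exact Zsqrtd.decompose.symm

/-- Ring expressions. -/
inductive Ex
  | var (n : ℕ)
  | cst (c : GaussianInt)
  | add (a b : Ex)
  | sub (a b : Ex)
  | mul (a b : Ex)

instance : Add Ex := ⟨.add⟩
instance : Sub Ex := ⟨.sub⟩
instance : Mul Ex := ⟨.mul⟩

/-- The value of an expression. -/
def Ex.sem {R : Type} [CommRing R] (h : GaussianInt →+* R) (env : ℕ → R) : Ex → R
  | .var n => env n
  | .cst c => h c
  | .add a b => a.sem h env + b.sem h env
  | .sub a b => a.sem h env - b.sem h env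
  | .mul a b => a.sem h env * b.sem h env

theorem Ex.map_sem {R S : Type} [CommRing R] [CommRing S] (f : R →+* S) (h : GaussianInt →+* R)
    (env : ℕ → R) (e : Ex) : f (e.sem h env) = e.sem (f.comp h) fun n => f (env n) := by
  induction e with
  | var n => rfl
  | cst c => rfl
  | add a b iha ihb => simp [Ex.sem, iha, ihb]
  | sub a b iha ihb => simp [Ex.sem, iha, ihb]
  | mul a b iha ihb => simp [Ex.sem, iha, ihb]

/-- Multiplication of Gaussian integers. -/
def gmul (u v : GaussianInt) : GaussianInt :=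
  ⟨u.re * v.re - u.im * v.im, u.re * v.im + u.im * v.re⟩

theorem gmul_eq (u v : GaussianInt) : gmul u v = u * v := by
  ext <;> simp [gmul]
  ring

/-- Strict evaluation of an expression. -/
def Ex.val (env : List GaussianInt) : Ex → GaussianInt
  | .var n => env.getD n ⟨0, 0⟩
  | .cst c => c
  | .add a b => fG (a.val env) fun u => fG (b.val env) fun v => ⟨u.re + v.re, u.im + v.im⟩
  | .sub a b => fG (a.val env) fun u => fG (b.val env) fun v => ⟨u.re - v.re, u.im - v.im⟩
  | .mul a b => fG (a.val env) fun u => fG (b.val env) fun v => gmul u v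

theorem Ex.val_eq (env : List GaussianInt) (e : Ex) :
    e.val env = e.sem (RingHom.id _) fun n => env.getD n 0 := by
  induction e with
  | var n => rfl
  | cst c => rfl
  | add a b iha ihb => rw [Ex.val, fG_eq, fG_eq, iha, ihb]; rfl
  | sub a b iha ihb => rw [Ex.val, fG_eq, fG_eq, iha, ihb]; ext <;> simp [Ex.sem]
  | mul a b iha ihb => rw [Ex.val, fG_eq, fG_eq, iha, ihb, gmul_eq]; rfl

/-- A bound for the size of an expression. -/
def Ex.bd (env : List (List GaussianInt)) : Ex → ℕ
  | .var n => lsz (env.getD n [])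
  | .cst c => n1 c
  | .add a b => a.bd env + b.bd env
  | .sub a b => a.bd env + b.bd env
  | .mul a b => a.bd env * b.bd env

theorem Ex.bd_sem (env : List (List GaussianInt)) (e : Ex) :
    Bd (e.sem Polynomial.C fun n => ev Polynomial.C X (env.getD n [])) (e.bd env) := by
  induction e with
  | var n => exact bd_ev _
  | cst c => exact Bd.C c
  | add a b iha ihb => exact .add iha ihb le_rfl
  | sub a b iha ihb =>
    rw [Ex.sem, sub_eq_add_neg]
    exact .add iha ihb.neg le_rfl
  | mul a b iha ihb => exact iha.mul ihb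

/-- The quotient of two Gaussian integers, when the division is exact. -/
def gdiv (v g : GaussianInt) : GaussianInt :=
  fG (gmul v ⟨g.re, -g.im⟩) fun w => fI (g.re * g.re + g.im * g.im) fun n => ⟨w.re / n, w.im / n⟩

/-- The check that `e` is a multiple of `m`. -/
def chk (B f : ℕ) (env : List (List GaussianInt)) (m : List GaussianInt) (e : Ex) : Bool :=
  fL (env.map (hor B)) fun vals => fG (e.val vals) fun v => fG (hor B m) fun g =>
    fG (gdiv v g) fun q => fG (gmul q g) fun u =>
      decide (v.re = u.re) && decide (v.im = u.im) &&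
        Nat.blt (e.bd env + (dsum B f q.re.natAbs + dsum B f q.im.natAbs) * lsz m) (2 ^ B)

theorem chk_sound {B f : ℕ} {env : List (List GaussianInt)} {m : List GaussianInt} {e : Ex}
    (hc : chk B f env m e = true) {R : Type} [CommRing R] (h : GaussianInt →+* R) (x : R)
    (hx : ev h x m = 0) : (e.sem h fun n => ev h x (env.getD n [])) = 0 := by
  simp only [chk, fL_eq, fG_eq, Bool.and_eq_true, decide_eq_true_eq, Nat.blt_eq] at hc
  generalize gdiv _ _ = q at hc
  obtain ⟨⟨h1, h2⟩, h3⟩ := hc
  have h4 : e.val (env.map (hor B)) = q * hor B m := by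
    rw [← gmul_eq]
    exact Zsqrtd.ext h1 h2
  obtain ⟨Q, hQ, hb⟩ := dsum_gauss B f q
  have h5 := Bd.add (e.bd_sem env) (hb.mul (bd_ev m)).neg le_rfl
  have hid : (evalRingHom ((2 ^ B : ℕ) : GaussianInt)).comp Polynomial.C = RingHom.id _ := by
    ext1
    simp
  have h6 := h5.eq_zero h3 (by
    rw [eval_add, eval_neg, eval_mul, hQ, ← coe_evalRingHom, Ex.map_sem, map_ev, hid]
    simp only [map_ev, hid, coe_evalRingHom, eval_X]
    rw [← hor_eq, ← h4, Ex.val_eq, add_neg_eq_zero]
    congr 1
    funext n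
    rw [← hor_eq]
    exact (List.getD_map _ _ (hor B)).symm)
  have hid' : (eval₂RingHom h x).comp Polynomial.C = h := by
    ext1
    simp
  have h7 := congrArg (eval₂RingHom h x) h6
  rw [map_add, map_neg, map_mul, Ex.map_sem, map_ev, hid'] at h7
  simp only [map_ev, hid', coe_eval₂RingHom, eval₂_X] at h7
  rw [hx] at h7
  simpa using h7

end Pool.Agent.P.MP_a60a76_nt
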