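import Pool.Agent.P.MP_a60a76_nt.Curve
import Pool.Agent.P.MP_a60a76_nt.Kron

/-!
Reduction of points, and a computable group law modulo a prime.
-/

namespace Pool.Agent.P.MP_a60a76_nt

open WeierstrassCurve WeierstrassCurve.Affine

section

variable {O F k : Type} [CommRing O] [Field F] [Field k] (ι : O →+* F) (ρ : O →+* k)
  {W : Affine F} {W' : Affine k} {a b c : O} {G : O → Prop} {P Q : W.Point} {R S : W'.Point}

/-- `P` reduces to `R`. -/
def RedW (P : W.Point) (R : W'.Point) : Prop :=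
  (P = 0 ∧ R = 0) ∨ ∃ x y : O, At P (ι x) (ι y) ∧ At R (ρ x) (ρ y)

/-- `P` reduces to `R`, with a good abscissa and `R` not of order two. -/
def RedS (G : O → Prop) (P : W.Point) (R : W'.Point) : Prop :=
  (P = 0 ∧ R = 0) ∨ ∃ x y : O, At P (ι x) (ι y) ∧ At R (ρ x) (ρ y) ∧ G x ∧ 2 * ρ y ≠ 0

variable {ι ρ}

theorem RedS.weak (h : RedS ι ρ G P R) : RedW ι ρ P R := by
  rcases h with h | ⟨x, y, h1, h2, -⟩
  · exact .inl h
  · exact .inr ⟨x, y, h1, h2⟩

theorem RedW.unique (hι : Function.Injective ι) (h : RedW ι ρ P R) (h' : RedW ι ρ P S) :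
    R = S := by
  rcases h with ⟨h1, h2⟩ | ⟨x, y, h1, h2⟩ <;> rcases h' with ⟨h3, h4⟩ | ⟨x', y', h3, h4⟩
  · rw [h2, h4]
  · exact (h3.ne_zero h1).elim
  · exact (h1.ne_zero h3).elim
  · obtain ⟨e1, e2⟩ := h1.unique h3
    rw [← hι e1, ← hι e2] at h4
    exact h2.ext h4

theorem RedS.inj (hι : Function.Injective ι) (hW : Short W (ι a) (ι b) (ι c))
    (hG : ∀ x x', G x → G x' → ρ x = ρ x' → x = x') (h : RedS ι ρ G P R) (h' : RedS ι ρ G Q R) :
    P = Q := by
  rcases h with ⟨h1, h2⟩ | ⟨x, y, h1, h2, g1, n1⟩ <;>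
    rcases h' with ⟨h3, h4⟩ | ⟨x', y', h3, h4, g2, n2⟩
  · rw [h1, h3]
  · exact (h4.ne_zero h2).elim
  · exact (h2.ne_zero h4).elim
  · obtain ⟨e1, e2⟩ := h2.unique h4
    obtain rfl := hG x x' g1 g2 e1
    rcases sq_eq_sq_iff_eq_or_eq_neg.1 ((h1.eq hW).trans (h3.eq hW).symm) with e | e
    · rw [e] at h1
      exact h1.ext h3
    · rw [← map_neg] at e
      rw [hι e, map_neg] at e2
      exact (n2 (by linear_combination -e2)).elim

variable [DecidableEq F] [DecidableEq k]

theorem RedS.add (hι : Function.Injective ι) (hu : ∀ z, ρ z ≠ 0 → IsUnit z)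
    (hW : Short W (ι a) (ι b) (ι c)) (hW' : Short W' (ρ a) (ρ b) (ρ c))
    (hG : ∀ x x', G x → G x' → ρ x = ρ x' → x = x') (h : RedS ι ρ G P R) (h' : RedS ι ρ G Q S) :
    RedW ι ρ (P + Q) (R + S) := by
  rcases h with ⟨rfl, rfl⟩ | ⟨x, y, h1, h2, g1, n1⟩
  · simpa using h'.weak
  rcases h' with ⟨rfl, rfl⟩ | ⟨x', y', h3, h4, g2, n2⟩
  · rw [add_zero, add_zero]
    exact .inr ⟨x, y, h1, h2⟩
  by_cases hx : ρ x = ρ x'
  · obtain rfl := hG x x' g1 g2 hx
    rcases sq_eq_sq_iff_eq_or_eq_neg.1 ((h3.eq hW).trans (h1.eq hW).symm) with e | e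
    · obtain rfl := hι e
      obtain rfl := h1.ext h3
      obtain rfl := h2.ext h4
      obtain ⟨w, hw⟩ := (hu (2 * y') (by simpa only [map_mul, map_ofNat] using n1)).exists_right_inv
      have hl : (3 * x ^ 2 + 2 * a * x + b) * w * (2 * y') = 3 * x ^ 2 + 2 * a * x + b := by
        linear_combination (3 * x ^ 2 + 2 * a * x + b) * hw
      generalize (3 * x ^ 2 + 2 * a * x + b) * w = l at hl
      have n3 : 2 * ι y' ≠ 0 := by
        intro h0
        have := congrArg ι hw
        simp only [map_mul, map_ofNat, map_one, h0, zero_mul] at this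
        exact zero_ne_one this
      have e1 := congrArg ι hl
      have e2 := congrArg ρ hl
      simp only [map_mul, map_add, map_pow, map_ofNat] at e1 e2
      refine .inr ⟨l ^ 2 - a - x - x, l * (x - (l ^ 2 - a - x - x)) - y', ?_, ?_⟩
      · simpa only [map_sub, map_mul, map_pow] using h1.add_self hW n3 e1
      · simpa only [map_sub, map_mul, map_pow] using h2.add_self hW' n1 e2
    · rw [← map_neg] at e
      obtain rfl := hι e
      rw [map_neg] at h3 h4
      exact .inl ⟨h1.add_neg hW h3, h2.add_neg hW' h4⟩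
  · obtain ⟨w, hw⟩ := (hu (x - x') (by simpa only [map_sub, sub_ne_zero] using hx)).exists_right_inv
    have hl : (y - y') * w * (x - x') = y - y' := by linear_combination (y - y') * hw
    generalize (y - y') * w = l at hl
    have e1 := congrArg ι hl
    have e2 := congrArg ρ hl
    simp only [map_mul, map_sub] at e1 e2
    refine .inr ⟨l ^ 2 - a - x - x', l * (x - (l ^ 2 - a - x - x')) - y, ?_, ?_⟩
    · simpa only [map_sub, map_mul, map_pow] using
        h1.add_ne hW h3 (fun h0 => hx (by rw [hι h0])) e1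
    · simpa only [map_sub, map_mul, map_pow] using h2.add_ne hW' h4 hx e2

end

/-- Modular exponentiation. -/
def pw (p a : ℕ) : ℕ → ℕ → ℕ
  | 0, _ => 1
  | f + 1, e => fN (pw p a f (e / 2)) fun h =>
      bif Nat.beq (e % 2) 0 then h * h % p else h * h % p * a % p

/-- The third point on a line of slope `l`, reflected. -/
def pfin (p A l x y x' : ℕ) : Option (ℕ × ℕ) :=
  fN l fun l => fN ((l * l + (3 * p - (A + x + x'))) % p) fun u =>
    fN ((l * (x + (p - u)) + (p - y)) % p) fun v => some (u, v)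

/-- The group law modulo `p`. -/
def padd (p A B : ℕ) : Option (ℕ × ℕ) → Option (ℕ × ℕ) → Option (ℕ × ℕ)
  | none, t => t
  | some s, none => some s
  | some (x, y), some (x', y') =>
    bif Nat.beq x x' then
      bif Nat.beq ((y + y') % p) 0 then none
      else pfin p A ((3 * x * x + 2 * A * x + B) % p * pw p (2 * y % p) 32 (p - 2) % p) x y x
    else pfin p A ((y + (p - y')) * pw p ((x + (p - x')) % p) 32 (p - 2) % p) x y x'

/-- Multiples of a point modulo `p`. -/
def psm (p A B : ℕ) (s : ℕ × ℕ) : ℕ → Option (ℕ × ℕ)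
  | 0 => none
  | n + 1 => padd p A B (psm p A B s n) (some s)

section

variable {k : Type} [Field k] {p : ℕ} [CharP k p]

theorem cast_mod (n : ℕ) : ((n % p : ℕ) : k) = n := (CharP.cast_eq_mod k p n).symm

theorem pw_eq (a f e : ℕ) (he : e < 2 ^ f) : (pw p a f e : k) = (a : k) ^ e := by
  induction f generalizing e with
  | zero =>
    obtain rfl : e = 0 := by simpa using he
    simp [pw]
  | succ f ih =>
    rw [pw, fN_eq]
    have h1 := ih (e / 2) (by omega)
    have h2 := Nat.div_add_mod e 2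
    rcases Nat.mod_two_eq_zero_or_one e with h | h
    · rw [h]
      simp only [Nat.beq_refl, cond_true, cast_mod, Nat.cast_mul, h1]
      rw [← pow_add]
      congr 1
      omega
    · rw [h]
      have : Nat.beq 1 0 = false := rfl
      simp only [this, cond_false, cast_mod, Nat.cast_mul, h1]
      rw [← pow_add, ← pow_succ]
      congr 1
      omega

theorem pw_inv [hp : Fact p.Prime] (h32 : p < 2 ^ 32) (a : ℕ) (ha : (a : k) ≠ 0) :
    (pw p a 32 (p - 2) : k) * a = 1 := by
  rw [pw_eq a 32 _ (by omega), ← pow_succ]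
  have h1 : (a : k) ^ p = a := map_natCast (frobenius k p) a
  have h2 := hp.out.two_le
  apply mul_right_cancel₀ ha
  rw [← pow_succ, one_mul, show p - 2 + 1 + 1 = p by omega, h1]

theorem cast_inj {x y : ℕ} (hx : x < p) (hy : y < p) (h : (x : k) = y) : x = y :=
  CharP.natCast_injOn_Iio k p hx hy h

theorem cast_sub' {x : ℕ} (hx : x ≤ p) : ((p - x : ℕ) : k) = -x := by
  rw [Nat.cast_sub hx, CharP.cast_eq_zero, zero_sub]

variable {W : Affine k}

/-- The pair `t` of residues represents the point `R`. -/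
def Rep (p : ℕ) (t : Option (ℕ × ℕ)) (R : W.Point) : Prop :=
  match t with
  | none => R = 0
  | some (x, y) => At R x y ∧ x < p ∧ y < p

theorem pfin_rep (hp : 0 < p) {A l x y x' : ℕ} (hA : A < p) (hx : x < p) (hy : y < p) (hx' : x' < p)
    {R : W.Point}
    (h : At R ((l : k) ^ 2 - A - x - x') (l * (x - ((l : k) ^ 2 - A - x - x')) - y)) :
    Rep p (pfin p A l x y x') R := by
  simp only [pfin, fN_eq, Rep]
  refine ⟨?_, Nat.mod_lt _ hp, Nat.mod_lt _ hp⟩
  have e : (((l * l + (3 * p - (A + x + x'))) % p : ℕ) : k) = (l : k) ^ 2 - A - x - x' := by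
    rw [cast_mod, Nat.cast_add, Nat.cast_sub (by omega)]
    push_cast
    rw [CharP.cast_eq_zero k p]
    ring
  rw [cast_mod (l * (x + _) + _)]
  simp only [Nat.cast_add, Nat.cast_mul]
  rw [cast_sub' (Nat.mod_lt _ hp).le, cast_sub' hy.le, e]
  simpa only [sub_eq_add_neg] using h

variable [DecidableEq k]

theorem padd_rep [hp : Fact p.Prime] (h32 : p < 2 ^ 32) {A B : ℕ} {c : k} (hA : A < p)
    (hW : Short W A B c) {s t : Option (ℕ × ℕ)} {R S : W.Point} (hs : Rep p s R) (ht : Rep p t S) :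
    Rep p (padd p A B s t) (R + S) := by
  rcases s with _ | ⟨x, y⟩
  · obtain rfl : R = 0 := hs
    simpa [padd] using ht
  rcases t with _ | ⟨x', y'⟩
  · obtain rfl : S = 0 := ht
    simpa [padd] using hs
  obtain ⟨h1, hx, hy⟩ := hs
  obtain ⟨h2, hx', hy'⟩ := ht
  rw [padd]
  cases e : Nat.beq x x' with
  | true =>
    obtain rfl := Nat.eq_of_beq_eq_true e
    rw [cond_true]
    cases e' : Nat.beq ((y + y') % p) 0 with
    | true =>
      have h3 := congrArg (Nat.cast : ℕ → k) (Nat.eq_of_beq_eq_true e')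
      rw [cast_mod, Nat.cast_add, Nat.cast_zero] at h3
      rw [eq_neg_of_add_eq_zero_right h3] at h2
      exact h1.add_neg hW h2
    | false =>
      have h3 : (y : k) + y' ≠ 0 := by
        intro h0
        rw [← Nat.cast_add, CharP.cast_eq_zero_iff k p] at h0
        exact Nat.ne_of_beq_eq_false e' (Nat.mod_eq_zero_of_dvd h0)
      have h4 : (y' : k) = y := by
        rcases sq_eq_sq_iff_eq_or_eq_neg.1 ((h2.eq hW).trans (h1.eq hW).symm) with h | h
        · exact h
        · exact (h3 (by rw [h, add_neg_cancel])).elim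
      rw [h4] at h2 h3
      obtain rfl := h1.ext h2
      have h5 : (2 : k) * y ≠ 0 := by rwa [two_mul]
      have h6 := pw_inv (k := k) h32 (2 * y % p) (by rw [cast_mod]; exact_mod_cast h5)
      rw [cast_mod] at h6
      refine pfin_rep hp.out.pos hA hx hy hx (h1.add_self hW h5 ?_)
      rw [cast_mod, Nat.cast_mul, cast_mod]
      push_cast at h6 ⊢
      linear_combination (3 * (x : k) * x + 2 * A * x + B) * h6
  | false =>
    have h3 : (x : k) ≠ x' := fun h => Nat.ne_of_beq_eq_false e (cast_inj hx hx' h)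
    have h4 : (((x + (p - x')) % p : ℕ) : k) = x - x' := by
      rw [cast_mod, Nat.cast_add, cast_sub' hx'.le, sub_eq_add_neg]
    have h6 := pw_inv (k := k) h32 ((x + (p - x')) % p) (by rw [h4]; exact sub_ne_zero.2 h3)
    rw [h4] at h6
    refine pfin_rep hp.out.pos hA hx hy hx' (h1.add_ne hW h2 h3 ?_)
    rw [cast_mod, Nat.cast_mul, Nat.cast_add, cast_sub' hy'.le]
    linear_combination ((y : k) - y') * h6

theorem psm_rep [hp : Fact p.Prime] (h32 : p < 2 ^ 32) {A B : ℕ} {c : k} (hA : A < p)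
    (hW : Short W A B c) {s : ℕ × ℕ} {R : W.Point} (hs : Rep p (some s) R) (n : ℕ) :
    Rep p (psm p A B s n) (n • R) := by
  induction n with
  | zero => exact zero_nsmul R
  | succ n ih =>
    rw [psm, succ_nsmul]
    exact padd_rep h32 hA hW ih hs

end

end Pool.Agent.P.MP_a60a76_nt
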