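import Pool.Agent.P.MP_a60a76_nt.ChkA
import Pool.Agent.P.MP_a60a76_nt.Red
import Pool.Agent.P.MP_a60a76_nt.DataC

/-!
Computations modulo the prime `1802189`, where all 19-torsion points are rational.
-/

namespace Pool.Agent.P.MP_a60a76_nt

/-- The prime. -/
abbrev pp : ℕ := 1802189

/-- Reduction of a Gaussian integer. -/
def rp (z : GaussianInt) : ℕ := ((z.re + z.im * 154435) % (pp : ℤ)).toNat

/-- Horner evaluation modulo the prime. -/
def evN (x : ℕ) : List ℕ → ℕ
  | [] => 0
  | c :: l => fN (evN x l) fun v => (c + x * v) % pp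

/-- Multiplication by a linear factor modulo the prime. -/
def ml (a : ℕ) : ℕ → List ℕ → List ℕ
  | q, [] => [q]
  | q, c :: l => fN ((q + (pp - a) * c) % pp) fun v => v :: ml a c l

/-- The product of linear factors, times 19. -/
def prodL : List Row → List ℕ
  | [] => [19]
  | e :: l => ml e.x 0 (prodL l)

/-- A combination of two points. -/
def tab (A B : ℕ) (s t : ℕ × ℕ) (a b : ℕ) : Option (ℕ × ℕ) :=
  padd pp A B (psm pp A B s a) (psm pp A B t b)

/-- The two points are on the curve and form a basis of the 19-torsion. -/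
def chkKer (A B C : ℕ) (s t : ℕ × ℕ) : Bool :=
  (s.2 * s.2 % pp == (s.1 * s.1 * s.1 + A * s.1 * s.1 + B * s.1 + C) % pp) &&
  (t.2 * t.2 % pp == (t.1 * t.1 * t.1 + A * t.1 * t.1 + B * t.1 + C) % pp) &&
  (psm pp A B s 19).isNone && (psm pp A B t 19).isNone &&
  (List.range 19).all fun a => (List.range 19).all fun b =>
    (tab A B s t a b).isSome || (a == 0 && b == 0)

/-- The conditions on a row of the table. -/
def chkRow (e : Row) : Bool :=
  (tab 1647753 119334 (439684, 265149) (1544880, 1409034) e.a e.b == some (e.x, e.y)) &&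
  (tab 154434 249540 (288113, 1479138) (577135, 209708) e.a e.b == some (e.u, e.v)) &&
  fN (evN e.x dP) fun d => fN (evN e.x nP1) fun n1 => fN (evN e.x nP2) fun n2 =>
  fN (evN e.x nP3) fun n3 =>
    !(Nat.beq d 0) && Nat.beq n1 (e.u * d % pp) && Nat.beq (evN e.x mP) (e.y * e.v * d % pp) &&
    !(Nat.beq e.y 0) && !(Nat.beq e.v 0) && !(Nat.beq n2 n1) && !(Nat.beq n3 n2) &&
    !(Nat.beq (evN e.x nP5) n3) && !(Nat.beq (evN e.x nP8) n3)

theorem red_g : gL.map rp = gP := by decide +kernel
theorem red_d : dL.map rp = dP := by decide +kernel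
theorem red_m : mL.map rp = mP := by decide +kernel
theorem red_1 : nL1.map rp = nP1 := by decide +kernel
theorem red_2 : nL2.map rp = nP2 := by decide +kernel
theorem red_3 : nL3.map rp = nP3 := by decide +kernel
theorem red_5 : nL5.map rp = nP5 := by decide +kernel
theorem red_8 : nL8.map rp = nP8 := by decide +kernel

theorem prod_tb : prodL tb = gP := by decide +kernel

theorem ker_1 : chkKer 1647753 119334 1210526 (439684, 265149) (1544880, 1409034) = true := by
  decide +kernel

theorem ker_2 : chkKer 154434 249540 571098 (288113, 1479138) (577135, 209708) = true := by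
  decide +kernel

theorem row_tb : tb.all chkRow = true := by decide +kernel

theorem pair_tb : (tb.all fun e => tb.all fun f => !(Nat.beq e.u f.u) || Nat.beq e.x f.x) =
    true := by
  decide +kernel

theorem last_g : gL.getLast? = some 19 := by decide +kernel

end Pool.Agent.P.MP_a60a76_nt
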