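import Mathlib

/-!
Congruent elliptic curves over a field: definitions.
-/

namespace Pool.Agent.P.MP_a60a76_nt

/-- For abelian groups `G`, `H` with operators `a σ`, `b σ`: there is a group isomorphism
`G[p] ≃ H[p]` between the subgroups of elements killed by `p` that commutes with the operators. -/
def TorsIso {Γ G H : Type} [AddCommGroup G] [AddCommGroup H] (p : ℕ) (a : Γ → G →+ G)
    (b : Γ → H →+ H) : Prop :=
  ∃ φ : AddSubgroup.torsionBy G p ≃+ AddSubgroup.torsionBy H p,
    ∀ (σ : Γ) (P Q : AddSubgroup.torsionBy G p), Q.1 = a σ P.1 → (φ Q).1 = b σ (φ P).1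

/-- For abelian groups `G`, `H` with operators `a σ`, `b σ`: there is a group homomorphism `G → H`
with finite kernel that commutes up to sign with each operator. -/
def FinKerHom {Γ G H : Type} [AddCommGroup G] [AddCommGroup H] (a : Γ → G →+ G)
    (b : Γ → H →+ H) : Prop :=
  ∃ ψ : G →+ H, Finite ψ.ker ∧
    ∀ σ : Γ, (∀ P, ψ (a σ P) = b σ (ψ P)) ∨ ∀ P, ψ (a σ P) = -b σ (ψ P)

open scoped Classical

variable {K : Type} [Field K]

/-- The group of points of `E` over an algebraic closure of `K`. -/
abbrev Pts (E : WeierstrassCurve K) : Type :=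
  (E.baseChange (AlgebraicClosure K)).toAffine.Point

/-- The action of an element of the absolute Galois group on points, through the coordinates. -/
noncomputable def gal (E : WeierstrassCurve K) (σ : AlgebraicClosure K ≃ₐ[K] AlgebraicClosure K) :
    Pts E →+ Pts E :=
  WeierstrassCurve.Affine.Point.map (W' := E.toAffine) σ.toAlgHom

/-- `E₁` and `E₂` are `p`-congruent: there is a group isomorphism `E₁[p] ≃ E₂[p]` commuting with
the absolute Galois group of `K`. -/
def Congruent (p : ℕ) (E₁ E₂ : WeierstrassCurve K) : Prop :=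
  TorsIso p (gal E₁) (gal E₂)

/-- There is a group homomorphism with finite kernel between the groups of points which commutes,
up to sign, with every element of the absolute Galois group. An isogeny over `K` from `E₁` to `E₂`,
or to a quadratic twist of `E₂`, induces such a homomorphism. -/
def HomRelated (E₁ E₂ : WeierstrassCurve K) : Prop :=
  FinKerHom (gal E₁) (gal E₂)

/-- The curve `y ^ 2 = x ^ 3 - (1 + i) x ^ 2 + (184437 - 230626 i) x + (60363049 + 13957955 i)`
over `ℚ(i)`. -/
noncomputable def curve₁ : WeierstrassCurve (FractionRing GaussianInt) :=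
  (⟨0, ⟨-1, -1⟩, 0, ⟨184437, -230626⟩, ⟨60363049, 13957955⟩⟩ :
    WeierstrassCurve GaussianInt).baseChange _

/-- The conjugate curve
`y ^ 2 = x ^ 3 - (1 - i) x ^ 2 + (184437 + 230626 i) x + (60363049 - 13957955 i)`. -/
noncomputable def curve₂ : WeierstrassCurve (FractionRing GaussianInt) :=
  (⟨0, ⟨-1, 1⟩, 0, ⟨184437, 230626⟩, ⟨60363049, -13957955⟩⟩ :
    WeierstrassCurve GaussianInt).baseChange _

end Pool.Agent.P.MP_a60a76_nt
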