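import Pool.Agent.P.MP_a60a76_nt.Core
import Pool.Agent.P.MP_a60a76_nt.Defs

/-!
The two curves are 19-congruent.
-/

namespace Pool.Agent.P.MP_a60a76_nt

open WeierstrassCurve WeierstrassCurve.Affine

variable {F : Type} [Field F]

theorem exists_val [CharZero F] (h : GaussianInt →+* F) (π : GaussianInt) (hπ : ¬ IsUnit π) :
    ∃ V : ValuationSubring F, (∀ z, h z ∈ V) ∧ h π ∈ V.nonunits := by
  have hinj : ∀ z, h z = 0 → z = 0 := by
    intro z hz
    have h1 : h (z.norm : GaussianInt) = 0 := by rw [Zsqrtd.norm_eq_mul_conj, map_mul, hz, zero_mul]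
    rw [map_intCast, Int.cast_eq_zero] at h1
    exact GaussianInt.norm_eq_zero.1 h1
  have hI : Ideal.span {h.rangeRestrict π} ≠ ⊤ := by
    rw [Ne, Ideal.span_singleton_eq_top]
    intro hu
    obtain ⟨w, hw⟩ := hu.exists_right_inv
    obtain ⟨z, rfl⟩ := h.rangeRestrict_surjective w
    have h1 : h (π * z - 1) = 0 := by
      have := congrArg h.range.subtype hw
      simpa [sub_eq_zero] using this
    exact hπ (IsUnit.of_mul_eq_one z (sub_eq_zero.1 (hinj _ h1)))
  obtain ⟨V, h1, h2⟩ := Ideal.image_subset_nonunits_valuationSubring _ hI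
  exact ⟨V, fun z => h1 ⟨z, rfl⟩, h2 ⟨_, Ideal.subset_span rfl, rfl⟩⟩

theorem val_ev (V : ValuationSubring F) (h : GaussianInt →+* F) (hV : ∀ z, h z ∈ V) {x : F}
    (hx : 1 < V.valuation x) {u : GaussianInt} (hu : V.valuation (h u) = 1)
    (l : List GaussianInt) (hl : l.getLast? = some u) : 1 ≤ V.valuation (ev h x l) := by
  induction l with
  | nil => simp at hl
  | cons c l ih =>
    cases l with
    | nil =>
      obtain rfl : c = u := by simpa using hl
      simp [ev, hu]
    | cons c' l =>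
      have h1 := ih (by simpa using hl)
      have h2 : 1 < V.valuation (x * ev h x (c' :: l)) := by
        rw [map_mul]
        exact lt_of_lt_of_le hx (le_mul_of_one_le_right' h1)
      rw [ev, Valuation.map_add_eq_of_lt_right _
        (lt_of_le_of_lt ((V.valuation_le_one_iff _).2 (hV c)) h2)]
      exact h2.le

theorem good [CharZero F] [DecidableEq F] (h : GaussianInt →+* F) {W₁ W₂ : Affine F}
    (hW₁ : Short W₁ (h A2) (h A4) (h A6)) (hW₂ : Short W₂ (h B2) (h B4) (h B6)) :
    Good h W₁ W₂ := by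
  obtain ⟨V, hV, hπ⟩ := exists_val h ⟨-1342, -35⟩ (by
    rw [← Zsqrtd.norm_eq_one_iff]
    decide)
  let h' : GaussianInt →+* V := h.codRestrict V hV
  let ρ := IsLocalRing.residue V
  have h0 : ρ (h' ⟨-1342, -35⟩) = 0 :=
    (IsLocalRing.residue_eq_zero_iff _).2 (V.coe_mem_nonunits_iff.1 hπ)
  have hp : ((pp : ℕ) : IsLocalRing.ResidueField V) = 0 := by
    have : ((pp : ℕ) : GaussianInt) = ⟨-1342, -35⟩ * ⟨-1342, 35⟩ := by decide +kernel
    rw [← map_natCast (ρ.comp h'), this, map_mul, RingHom.comp_apply, h0, zero_mul]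
  have : CharP (IsLocalRing.ResidueField V) pp := (CharP.charP_iff_prime_eq_zero pp_prime).2 hp
  have hi : ρ (h' ⟨0, 1⟩) = (154435 : ℕ) := by
    have : (⟨0, 1⟩ : GaussianInt) = ⟨-1342, -35⟩ * ⟨115, -3⟩ + (154435 : ℕ) := by decide +kernel
    rw [this, map_add, map_add, map_mul, map_mul, h0, zero_mul, zero_add, map_natCast, map_natCast]
  have h19 : V.valuation (h 19) = 1 := by
    refine (V.valuation_eq_one_iff (h' 19)).1 ((IsLocalRing.residue_ne_zero_iff_isUnit _).1 ?_)
    intro h1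
    have : ((19 : ℕ) : IsLocalRing.ResidueField V) = 0 := by
      simpa only [map_ofNat, Nat.cast_ofNat] using h1
    rw [CharP.cast_eq_zero_iff _ pp] at this
    norm_num at this
  refine core V.subtype ρ h' Subtype.val_injective
    (fun z hz => (IsLocalRing.residue_ne_zero_iff_isUnit z).1 hz) hi ?_ ?_ hW₁ hW₂
  · intro x hx
    by_contra hn
    have h1 : 1 < V.valuation x := by
      rw [← not_le, V.valuation_le_one_iff]
      exact fun hx => hn ⟨⟨x, hx⟩, rfl⟩
    have h2 := val_ev V h hV h1 h19 gL last_g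
    rw [show ev h x gL = 0 from hx] at h2
    simp at h2
  · intro y z hy
    have h1 : V.valuation y ^ 2 ≤ 1 := by
      rw [← map_pow, hy]
      exact V.valuation_le_one z
    exact ⟨⟨y, (V.valuation_le_one_iff _).1 ((pow_le_one_iff_of_nonneg zero_le two_ne_zero).1 h1)⟩,
      rfl⟩

theorem Good.inj [DecidableEq F] {h : GaussianInt →+* F} {W₁ W₂ : Affine F} (g : Good h W₁ W₂) :
    Function.Injective fun P : {P : W₁.Point // 19 • P = 0} =>
      (⟨phi h W₁ W₂ P, g.tors P P.2⟩ : {P : W₂.Point // 19 • P = 0}) := by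
  intro P Q hPQ
  have := g.add P 0 Q P.2 (nsmul_zero _) Q.2 (by
    rw [phi_zero, add_zero]
    exact congrArg Subtype.val hPQ)
  exact Subtype.ext (by simpa using this)

theorem Good.surj [DecidableEq F] {h h' : GaussianInt →+* F} {W₁ W₂ : Affine F} (g : Good h W₁ W₂)
    (g' : Good h' W₂ W₁) (Q : W₂.Point) (hQ : 19 • Q = 0) :
    ∃ P : W₁.Point, 19 • P = 0 ∧ phi h W₁ W₂ P = Q := by
  have := g.fin
  have := g'.fin
  obtain ⟨P, hP⟩ :=
    (g.inj.bijective_of_nat_card_le (Nat.card_le_card_of_injective _ g'.inj)).2 ⟨Q, hQ⟩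
  exact ⟨P, P.2, congrArg Subtype.val hP⟩

/-- The field `ℚ(i)`. -/
abbrev Qi : Type := FractionRing GaussianInt

/-- The embedding of the Gaussian integers in the algebraic closure. -/
noncomputable def emb : GaussianInt →+* AlgebraicClosure Qi :=
  (algebraMap Qi (AlgebraicClosure Qi)).comp (algebraMap GaussianInt Qi)

theorem short₁ : Short (curve₁.baseChange (AlgebraicClosure Qi)).toAffine
    (emb A2) (emb A4) (emb A6) :=
  ⟨map_zero emb, rfl, map_zero emb, rfl, rfl⟩

theorem short₂ : Short (curve₂.baseChange (AlgebraicClosure Qi)).toAffine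
    (emb B2) (emb B4) (emb B6) :=
  ⟨map_zero emb, rfl, map_zero emb, rfl, rfl⟩

open scoped Classical

/-- The subgroup of points killed by `p`. -/
noncomputable abbrev Tors {K : Type} [Field K] (E : WeierstrassCurve K) (p : ℕ) :
    AddSubgroup (Pts E) :=
  AddSubgroup.torsionBy (Pts E) p

theorem gal_at {K : Type} [Field K] {E : WeierstrassCurve K} {P : Pts E} {x y : AlgebraicClosure K}
    (σ : AlgebraicClosure K ≃ₐ[K] AlgebraicClosure K) (h : At P x y) :
    At (gal E σ P) (σ x) (σ y) := by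
  obtain ⟨h, rfl⟩ := h
  exact ⟨_, rfl⟩

theorem congruent : Congruent 19 curve₁ curve₂ := by
  have g := good emb short₁ short₂
  have g' := good (emb.comp (starRingEnd GaussianInt)) short₂ short₁
  have mem : ∀ {E : WeierstrassCurve Qi} {P : Pts E}, P ∈ Tors E 19 ↔ 19 • P = 0 :=
    AddSubgroup.torsionBy.nsmul_iff
  let f : Tors curve₁ 19 →+ Tors curve₂ 19 := AddMonoidHom.mk'
    (fun P => ⟨phi emb _ _ P.1, mem.2 (g.tors _ (mem.1 P.2))⟩) (by
      intro P Q
      have hP := mem.1 P.2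
      have hQ := mem.1 Q.2
      obtain ⟨S, hS, h1⟩ := g.surj g' (phi emb _ _ P.1 + phi emb _ _ Q.1) (by
        rw [nsmul_add, g.tors _ hP, g.tors _ hQ, add_zero])
      have h2 := g.add _ _ S hP hQ hS h1.symm
      apply Subtype.ext
      change phi emb _ _ (P.1 + Q.1) = phi emb _ _ P.1 + phi emb _ _ Q.1
      rw [h2, h1])
  have hf : Function.Bijective f := by
    constructor
    · intro P Q hPQ
      have := g.inj (a₁ := ⟨P.1, mem.1 P.2⟩) (a₂ := ⟨Q.1, mem.1 Q.2⟩)
        (Subtype.ext (congrArg Subtype.val hPQ))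
      exact Subtype.ext (congrArg Subtype.val this)
    · intro Q
      obtain ⟨P, hP, h1⟩ := g.surj g' Q.1 (mem.1 Q.2)
      exact ⟨⟨P, mem.2 hP⟩, Subtype.ext h1⟩
  refine ⟨AddEquiv.ofBijective f hf, fun σ P Q hQ => ?_⟩
  change phi emb _ _ Q.1 = gal curve₂ σ (phi emb _ _ P.1)
  by_cases hP : P.1 = 0
  · rw [hQ, hP, map_zero, phi_zero, map_zero]
  obtain ⟨x, y, hP⟩ := exists_at hP
  have h1 := gal_at σ (g.atp _ x y (mem.1 P.2) hP)
  have h2 := g.atp _ _ _ (mem.1 Q.2) (hQ ▸ gal_at σ hP)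
  have h3 : (σ : AlgebraicClosure Qi →+* AlgebraicClosure Qi).comp emb = emb :=
    RingHom.ext fun z => σ.commutes _
  have h4 : ∀ l, σ (ev emb x l) = ev emb (σ x) l := fun l => by
    have := map_ev (σ : AlgebraicClosure Qi →+* AlgebraicClosure Qi) emb x l
    rwa [h3] at this
  rw [phX, phY, map_div₀, map_div₀, map_mul, h4, h4, h4] at h1
  exact h2.ext h1

end Pool.Agent.P.MP_a60a76_nt
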