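import Pool.Agent.P.MP_a60a76_nt.Tab

/-!
The map on 19-torsion points is an injective homomorphism.
-/

namespace Pool.Agent.P.MP_a60a76_nt

open WeierstrassCurve WeierstrassCurve.Affine

variable {F : Type} [Field F]

/-- The abscissa of the image point. -/
def phX (h : GaussianInt →+* F) (x : F) : F := ev h x nL1 / ev h x dL

/-- The ordinate of the image point. -/
def phY (h : GaussianInt →+* F) (x y : F) : F := ev h x mL / (ev h x dL * y)

open Classical in
/-- The map on points. -/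
noncomputable def phi (h : GaussianInt →+* F) (W₁ W₂ : Affine F) : W₁.Point → W₂.Point
  | .zero => 0
  | .some x y _ => if hn : W₂.Nonsingular (phX h x) (phY h x y) then .some _ _ hn else 0

theorem phi_zero (h : GaussianInt →+* F) (W₁ W₂ : Affine F) : phi h W₁ W₂ 0 = 0 := rfl

theorem phi_at {h : GaussianInt →+* F} {W₁ W₂ : Affine F} {P : W₁.Point} {Q : W₂.Point} {x y : F}
    (hP : At P x y) (hQ : At Q (phX h x) (phY h x y)) : phi h W₁ W₂ P = Q := by
  obtain ⟨hP, rfl⟩ := hP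
  obtain ⟨hQ, rfl⟩ := hQ
  simp [phi, hQ]

theorem ev_x {R : Type} [CommRing R] (h : GaussianInt →+* R) (x : R) : ev h x xL1 = x := by
  have h0 : (⟨0, 0⟩ : GaussianInt) = 0 := rfl
  have h1 : (⟨1, 0⟩ : GaussianInt) = 1 := rfl
  simp [xL1, ev, h0, h1]

theorem ev_z {R : Type} [CommRing R] (h : GaussianInt →+* R) (x : R) : ev h x zL1 = 1 := by
  have h1 : (⟨1, 0⟩ : GaussianInt) = 1 := rfl
  simp [zL1, ev, h1]

theorem sem_sub {R : Type} [CommRing R] (h : GaussianInt →+* R) (env : ℕ → R) (a b : Ex) :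
    (a - b).sem h env = a.sem h env - b.sem h env := rfl

section

variable [DecidableEq F] {h : GaussianInt →+* F} {W : Affine F} {P Q : W.Point}

theorem stepD (hW : Short W (h A2) (h A4) (h A6)) {x : F} {X Z X' Z' : List GaussianInt}
    (hc : chkD X Z X' Z' = true) (hP : HX P (ev h x X) (ev h x Z)) (h2 : P + P ≠ 0) :
    HX (P + P) (ev h x X') (ev h x Z') := by
  rw [chkD, Bool.and_eq_true] at hc
  have h3 := chk_sound hc.1 h x rfl
  have h4 := chk_sound hc.2 h x rfl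
  simp only [eQ4, eCub, sem_sub, Ex.sem, List.getD_cons_zero,
    List.getD_cons_succ, map_ofNat] at h3 h4
  exact hP.dbl hW h2 h3 h4

theorem stepS (hW : Short W (h A2) (h A4) (h A6)) {x : F} {X Z X' Z' X'' Z'' : List GaussianInt}
    (hc : chkS X Z X' Z' X'' Z'' = true) (hP : HX P (ev h x X) (ev h x Z))
    (hQ : HX Q (ev h x X') (ev h x Z')) (hx : HasX (P - Q) x) (h2 : P + Q ≠ 0) :
    HX (P + Q) (ev h x X'') (ev h x Z'') := by
  rw [chkS, Bool.and_eq_true] at hc
  have h3 := chk_sound hc.1 h x rfl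
  have h4 := chk_sound hc.2 h x rfl
  simp only [eAddX, sem_sub, Ex.sem, List.getD_cons_zero,
    List.getD_cons_succ, map_ofNat, ev_x] at h3 h4
  exact hP.add hW hQ hx h2 h3 h4

theorem ladderA (hW : Short W (h A2) (h A4) (h A6)) {x : F} (hP : HasX P x) (h19 : 19 • P = 0) :
    ev h x gL = 0 := by
  have n := fun k hk => nsmul_ne_zero_of_lt h19 hP.ne_zero (k := k) hk
  have h1 : HX P (ev h x xL1) (ev h x zL1) := ⟨x, hP, by simp [ev_x, ev_z], by simp [ev_z]⟩
  have h2 : HX (2 • P) (ev h x xL2) (ev h x zL2) := by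
    have e : P + P = 2 • P := by abel
    exact e ▸ stepD hW chk_2 h1 (e ▸ n 2 (by norm_num))
  have h3 : HX (3 • P) (ev h x xL3) (ev h x zL3) := by
    have e : 2 • P + P = 3 • P := by abel
    exact e ▸ stepS hW chk_3 h2 h1 (by rwa [show 2 • P - P = P by abel]) (e ▸ n 3 (by norm_num))
  have h4 : HX (4 • P) (ev h x xL4) (ev h x zL4) := by
    have e : 2 • P + 2 • P = 4 • P := by abel
    exact e ▸ stepD hW chk_4 h2 (e ▸ n 4 (by norm_num))
  have h5 : HX (5 • P) (ev h x xL5) (ev h x zL5) := by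
    have e : 3 • P + 2 • P = 5 • P := by abel
    exact e ▸ stepS hW chk_5 h3 h2 (by rwa [show 3 • P - 2 • P = P by abel])
      (e ▸ n 5 (by norm_num))
  have h9 : HX (9 • P) (ev h x xL9) (ev h x zL9) := by
    have e : 5 • P + 4 • P = 9 • P := by abel
    exact e ▸ stepS hW chk_9 h5 h4 (by rwa [show 5 • P - 4 • P = P by abel])
      (e ▸ n 9 (by norm_num))
  have h10 : HX (10 • P) (ev h x xL10) (ev h x zL10) := by
    have e : 5 • P + 5 • P = 10 • P := by abel
    exact e ▸ stepD hW chk_10 h5 (e ▸ n 10 (by norm_num))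
  have h6 := h9.cross hW h10 (by rw [← h19]; abel)
  have h7 := chk_sound chk_19 h x rfl
  simp only [sem_sub, Ex.sem, List.getD_cons_zero, List.getD_cons_succ] at h7
  linear_combination h6 - h7

omit [DecidableEq F] in
theorem addR_of {x : F} (hx : ev h x gL = 0) (hd : ev h x dL ≠ 0) {u v w z : List GaussianInt}
    (hc : chkA u v w z = true) : AddR (h B2) (h B4) (h B6) (ev h x u / ev h x dL)
      (ev h x v / ev h x dL) (ev h x w / ev h x dL) (ev h x z / ev h x dL) := by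
  have h3 := chk_sound hc h x hx
  simp only [eAdd, sem_sub, Ex.sem, List.getD_cons_zero,
    List.getD_cons_succ, map_ofNat] at h3
  rw [AddR]
  field_simp
  linear_combination h3

omit [DecidableEq F] in
theorem dblR_of {x : F} (hx : ev h x gL = 0) (hd : ev h x dL ≠ 0) :
    DblR (h B2) (h B4) (h B6) (ev h x nL1 / ev h x dL) (ev h x nL2 / ev h x dL) := by
  have h3 := chk_sound chk_dbl h x hx
  simp only [eQ4, eCub, sem_sub, Ex.sem, List.getD_cons_zero,
    List.getD_cons_succ, map_ofNat] at h3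
  rw [DblR, cub]
  field_simp
  linear_combination h3

omit [DecidableEq F] in
theorem curve_of {x y : F} (hx : ev h x gL = 0) (hd : ev h x dL ≠ 0) (hy : y ≠ 0)
    (e : y ^ 2 = cub (h A2) (h A4) (h A6) x) :
    phY h x y ^ 2 = cub (h B2) (h B4) (h B6) (phX h x) := by
  have h3 := chk_sound chk_curve h x hx
  simp only [eCub, sem_sub, Ex.sem, List.getD_cons_zero,
    List.getD_cons_succ, ev_x, ev_z] at h3
  rw [cub] at e
  rw [phX, phY, cub]
  field_simp
  rw [e]
  linear_combination h3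

end

/-- The derivative of the Horner evaluation. -/
def evd {R : Type} [CommRing R] (h : GaussianInt →+* R) (x : R) : List GaussianInt → R
  | [] => 0
  | _ :: l => ev h x l + x * evd h x l

theorem ev_taylor {R : Type} [CommRing R] (h : GaussianInt →+* R) (x d : R)
    (l : List GaussianInt) : ∃ t, ev h (x + d) l = ev h x l + d * evd h x l + d ^ 2 * t := by
  induction l with
  | nil => exact ⟨0, by simp [ev, evd]⟩
  | cons c l ih =>
    obtain ⟨t, ht⟩ := ih
    exact ⟨evd h x l + (x + d) * t, by rw [ev, ev, evd, ht]; ring⟩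

theorem ev_dl {R : Type} [CommRing R] (h : GaussianInt →+* R) (x : R) (n : ℕ)
    (l : List GaussianInt) : ev h x (dl n l) = n * ev h x l + x * evd h x l := by
  induction l generalizing n with
  | nil => simp [dl, ev, evd]
  | cons c l ih =>
    have : (⟨n * c.re, n * c.im⟩ : GaussianInt) = n * c := by ext <;> simp
    rw [dl, ev, ev, evd, ih, this, map_mul, map_natCast]
    push_cast
    ring

theorem evd_eq {R : Type} [CommRing R] (h : GaussianInt →+* R) (x : R) (l : List GaussianInt) :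
    evd h x l = ev h x (dl 1 l.tail) := by
  cases l with
  | nil => rfl
  | cons c l => rw [List.tail_cons, ev_dl, evd, Nat.cast_one, one_mul]

/-- The properties of the map on 19-torsion points. -/
structure Good [DecidableEq F] (h : GaussianInt →+* F) (W₁ W₂ : Affine F) : Prop where
  tors : ∀ P : W₁.Point, 19 • P = 0 → 19 • phi h W₁ W₂ P = 0
  fin : Finite {P : W₁.Point // 19 • P = 0}
  add : ∀ P Q S : W₁.Point, 19 • P = 0 → 19 • Q = 0 → 19 • S = 0 →
    phi h W₁ W₂ P + phi h W₁ W₂ Q = phi h W₁ W₂ S → P + Q = S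
  atp : ∀ (P : W₁.Point) x y, 19 • P = 0 → At P x y → At (phi h W₁ W₂ P) (phX h x) (phY h x y)

theorem comb_eq {G : Type} [AddCommGroup G] {R S : G}
    (hk : ∀ u v : ℤ, u • R + v • S = 0 ↔ 19 ∣ u ∧ 19 ∣ v) (u v u' v' : ℤ) :
    u • R + v • S = u' • R + v' • S ↔ 19 ∣ u - u' ∧ 19 ∣ v - v' := by
  rw [← hk, ← sub_eq_zero, sub_zsmul, sub_zsmul,
    show u • R + v • S - (u' • R + v' • S) = u • R + -(u' • R) + (v • S + -(v' • S)) by abel]

theorem core [DecidableEq F] {O k : Type} [CommRing O] [Field k] [CharP k pp] (ι : O →+* F)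
    (ρ : O →+* k) (h : GaussianInt →+* O) (hι : Function.Injective ι)
    (hu : ∀ z, ρ z ≠ 0 → IsUnit z) (hi : ρ (h ⟨0, 1⟩) = (154435 : ℕ))
    (hx : ∀ x : F, ev (ι.comp h) x gL = 0 → ∃ X, ι X = x)
    (hy : ∀ (y : F) (z : O), y ^ 2 = ι z → ∃ Y, ι Y = y) {W₁ W₂ : Affine F}
    (hW₁ : Short W₁ (ι (h A2)) (ι (h A4)) (ι (h A6)))
    (hW₂ : Short W₂ (ι (h B2)) (ι (h B4)) (ι (h B6))) : Good (ι.comp h) W₁ W₂ := by
  classical
  let V₁ : Affine k := ⟨0, ρ (h A2), 0, ρ (h A4), ρ (h A6)⟩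
  let V₂ : Affine k := ⟨0, ρ (h B2), 0, ρ (h B4), ρ (h B6)⟩
  have hV₁ : Short V₁ (ρ (h A2)) (ρ (h A4)) (ρ (h A6)) := ⟨rfl, rfl, rfl, rfl, rfl⟩
  have hV₂ : Short V₂ (ρ (h B2)) (ρ (h B4)) (ρ (h B6)) := ⟨rfl, rfl, rfl, rfl, rfl⟩
  obtain ⟨R, S, R', S', k1, k2, hrow, hroot⟩ := table (h := ρ.comp h) hi hV₁ hV₂
  let G₁ : O → Prop := fun X => ev h X gL = 0
  let G₂ : O → Prop := fun U => ∃ X, G₁ X ∧ U * ev h X dL = ev h X nL1
  have root : ∀ X, G₁ X → ∃ e ∈ tb, ρ X = e.x := fun X hX =>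
    hroot _ (by rw [← map_ev, hX, map_zero])
  have hG₁ : ∀ X X', G₁ X → G₁ X' → ρ X = ρ X' → X = X' := by
    intro X X' h1 h2 h3
    obtain ⟨e, he, h4⟩ := root X h1
    obtain ⟨t, ht⟩ := ev_taylor h X (X' - X) gL
    rw [add_sub_cancel, h1, h2, evd_eq] at ht
    have h5 : IsUnit (ev h X dL + (X' - X) * t) := by
      refine hu _ ?_
      rw [map_add, map_mul, map_sub, h3, sub_self, zero_mul, add_zero, map_ev, h4]
      exact (hrow e he).d0
    have h6 : (ev h X dL + (X' - X) * t) * (X' - X) = 0 := by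
      rw [dL]
      linear_combination -ht
    exact (sub_eq_zero.1 (h5.mul_right_eq_zero.1 h6)).symm
  have redU : ∀ U X, ∀ e ∈ tb, ρ X = e.x → U * ev h X dL = ev h X nL1 → ρ U = e.u := by
    intro U X e he h1 h2
    have h3 := congrArg ρ h2
    rw [map_mul, map_ev, map_ev, h1, (hrow e he).n1] at h3
    exact mul_right_cancel₀ (hrow e he).d0 h3
  have hG₂ : ∀ U U', G₂ U → G₂ U' → ρ U = ρ U' → U = U' := by
    rintro U U' ⟨X, h1, h2⟩ ⟨X', h3, h4⟩ h5
    obtain ⟨e, he, h6⟩ := root X h1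
    obtain ⟨f, hf, h7⟩ := root X' h3
    rw [redU U X e he h6 h2, redU U' X' f hf h7 h4] at h5
    have h8 := pair_spec he hf (cast_inj (hrow e he).ltu (hrow f hf).ltu h5)
    obtain rfl := hG₁ X X' h1 h3 (by rw [h6, h7, h8])
    have h9 : IsUnit (ev h X dL) := hu _ (by rw [map_ev, h6]; exact (hrow e he).d0)
    exact h9.mul_right_cancel (h2.trans h4.symm)
  have pt : ∀ P : W₁.Point, 19 • P = 0 → 19 • phi (ι.comp h) W₁ W₂ P = 0 ∧
      (∀ x y, At P x y → At (phi (ι.comp h) W₁ W₂ P) (phX (ι.comp h) x) (phY (ι.comp h) x y)) ∧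
      ∃ u v : ℤ, RedS ι ρ G₁ P (u • R + v • S) ∧
        RedS ι ρ G₂ (phi (ι.comp h) W₁ W₂ P) (u • R' + v • S') := by
    intro P h19
    by_cases hP : P = 0
    · subst hP
      exact ⟨by simp [phi_zero], fun x y h => (h.ne_zero rfl).elim, 0, 0,
        .inl ⟨rfl, by simp⟩, .inl ⟨rfl, by simp⟩⟩
    obtain ⟨x, y, hP⟩ := exists_at hP
    have g0 := ladderA (h := ι.comp h) hW₁ ⟨y, hP⟩ h19
    obtain ⟨X, rfl⟩ := hx x g0
    have e1 := hP.eq hW₁
    obtain ⟨Y, rfl⟩ := hy y (cub (h A2) (h A4) (h A6) X) (by simpa [cub] using e1)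
    have g1 : G₁ X := hι (by rw [map_ev, g0, map_zero])
    obtain ⟨e, he, hX⟩ := root X g1
    have r := hrow e he
    have e2 : ρ Y ^ 2 = (e.y : k) ^ 2 := by
      have : Y ^ 2 = cub (h A2) (h A4) (h A6) X := hι (by simpa [cub] using e1)
      rw [r.at1.eq hV₁, ← map_pow, this, ← hX]
      simp [cub]
    have y0 : (e.y : k) ≠ 0 := right_ne_zero_of_mul r.y0
    have Y0 : ρ Y ≠ 0 := fun h0 => pow_ne_zero 2 y0 (by rw [← e2, h0]; ring)
    obtain ⟨D, hD⟩ := (hu (ev h X dL) (by rw [map_ev, hX]; exact r.d0)).exists_right_inv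
    obtain ⟨T, hT⟩ := (hu Y Y0).exists_right_inv
    have hD' := congrArg ι hD
    have hT' := congrArg ι hT
    have hD'' := congrArg ρ hD
    have hT'' := congrArg ρ hT
    rw [map_mul, map_one] at hD' hT' hD'' hT''
    rw [map_ev] at hD' hD''
    rw [hX] at hD''
    have d0 := left_ne_zero_of_mul_eq_one hD'
    have t0 := left_ne_zero_of_mul_eq_one hT'
    have eX : ι (ev h X nL1 * D) = phX (ι.comp h) (ι X) := by
      rw [phX, map_mul, map_ev, eq_div_iff d0, mul_assoc, mul_comm (ι D), hD', mul_one]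
    have eY : ι (ev h X mL * D * T) = phY (ι.comp h) (ι X) (ι Y) := by
      rw [phY, map_mul, map_mul, map_ev, eq_div_iff (mul_ne_zero d0 t0)]
      linear_combination (ev (ι.comp h) (ι X) mL * ι T * ι Y) * hD' + ev (ι.comp h) (ι X) mL * hT'
    have gU : ev h X nL1 * D * ev h X dL = ev h X nL1 := by
      linear_combination ev h X nL1 * hD
    have rU := redU _ X e he hX gU
    have rV : ρ (ev h X mL * D * T) = e.y * e.v * ρ T := by
      rw [map_mul, map_mul, map_ev, hX, r.m]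
      linear_combination (e.y * e.v * ρ T) * hD''
    have v0 : 2 * ρ (ev h X mL * D * T) ≠ 0 := by
      rw [rV, show 2 * (e.y * e.v * ρ T : k) = 2 * e.v * (e.y * ρ T) by ring]
      exact mul_ne_zero r.v0 (mul_ne_zero y0 (right_ne_zero_of_mul_eq_one hT''))
    have v1 : 2 * phY (ι.comp h) (ι X) (ι Y) ≠ 0 := by
      intro h0
      have : 2 * (ev h X mL * D * T) = 0 := hι (by rw [map_mul, eY, map_ofNat, h0, map_zero])
      exact v0 (by simpa only [map_mul, map_ofNat, map_zero] using congrArg ρ this)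
    have e3 := curve_of g0 d0 t0 e1
    obtain ⟨Q, hQ⟩ := exists_point hW₂ e3 (.inl v1)
    have ne : ∀ l l', ev (ρ.comp h) e.x l ≠ ev (ρ.comp h) e.x l' →
        ev (ι.comp h) (ι X) l / ev (ι.comp h) (ι X) dL ≠
          ev (ι.comp h) (ι X) l' / ev (ι.comp h) (ι X) dL := by
      intro l l' h1 h2
      rw [div_left_inj' d0, ← map_ev, ← map_ev] at h2
      exact h1 (by rw [← hX, ← map_ev, ← map_ev, hι h2])
    rw [phi_at hP hQ]
    refine ⟨?_, fun x y h' => ?_, ?_⟩
    · refine ladderB hW₂ ⟨_, hQ⟩ ?_ (dblR_of g0 d0) (ne _ _ r.n2) (addR_of g0 d0 chk_a3)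
        (ne _ _ r.n3) (addR_of g0 d0 chk_a5) (ne _ _ r.n5) (addR_of g0 d0 chk_a8) (ne _ _ r.n8)
        (addR_of g0 d0 chk_a11)
      rw [← hQ.eq hW₂, show ∀ t : F, 4 * t ^ 2 = (2 * t) ^ 2 from fun t => by ring]
      exact pow_ne_zero 2 v1
    · obtain ⟨rfl, rfl⟩ := hP.unique h'
      exact hQ
    rw [← eX, ← eY] at hQ
    have Y2 : 2 * ρ Y ≠ 0 := mul_ne_zero (left_ne_zero_of_mul r.y0) Y0
    rcases sq_eq_sq_iff_eq_or_eq_neg.1 e2 with e4 | e4
    · refine ⟨e.a, e.b, .inr ⟨X, Y, hP, ?_, g1, Y2⟩, .inr ⟨_, _, hQ, ?_, ⟨X, g1, gU⟩, v0⟩⟩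
      · rw [hX, e4, natCast_zsmul, natCast_zsmul]
        exact r.at1
      · have : ρ (ev h X mL * D * T) = e.v := by
          rw [rV, ← e4]
          linear_combination e.v * hT''
        rw [rU, this, natCast_zsmul, natCast_zsmul]
        exact r.at2
    · refine ⟨-e.a, -e.b, .inr ⟨X, Y, hP, ?_, g1, Y2⟩, .inr ⟨_, _, hQ, ?_, ⟨X, g1, gU⟩, v0⟩⟩
      · rw [hX, e4, neg_zsmul, neg_zsmul, natCast_zsmul, natCast_zsmul, ← neg_add]
        exact r.at1.neg hV₁
      · have : ρ (ev h X mL * D * T) = -e.v := by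
          rw [e4] at hT''
          rw [rV]
          linear_combination -e.v * hT''
        rw [rU, this, neg_zsmul, neg_zsmul, natCast_zsmul, natCast_zsmul, ← neg_add]
        exact r.at2.neg hV₂
  refine ⟨fun P hP => (pt P hP).1, ?_, ?_, fun P x y hP => (pt P hP).2.1 x y⟩
  · choose u v huv using fun P : {P : W₁.Point // 19 • P = 0} => (pt P.1 P.2).2.2
    refine Finite.of_injective (fun P => ((u P : ZMod 19), (v P : ZMod 19))) fun P Q hPQ => ?_
    simp only [Prod.mk.injEq] at hPQ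
    have h1 := (ZMod.intCast_eq_intCast_iff_dvd_sub _ _ _).1 hPQ.1.symm
    have h2 := (ZMod.intCast_eq_intCast_iff_dvd_sub _ _ _).1 hPQ.2.symm
    have h3 := (comb_eq k1 _ _ _ _).2 ⟨h1, h2⟩
    exact Subtype.ext ((huv P).1.inj hι hW₁ hG₁ (h3 ▸ (huv Q).1))
  · intro P Q T hP hQ hT hsum
    obtain ⟨u1, v1, p1, p2⟩ := (pt P hP).2.2
    obtain ⟨u2, v2, q1, q2⟩ := (pt Q hQ).2.2
    obtain ⟨u3, v3, t1, t2⟩ := (pt T hT).2.2
    obtain ⟨u4, v4, s1, -⟩ := (pt (P + Q) (by rw [nsmul_add, hP, hQ, add_zero])).2.2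
    have h1 := p2.add hι hu hW₂ hV₂ hG₂ q2
    rw [hsum] at h1
    have h2 := h1.unique hι t2.weak
    have h3 := (p1.add hι hu hW₁ hV₁ hG₁ q1).unique hι s1.weak
    rw [add_add_add_comm, ← add_zsmul, ← add_zsmul] at h2 h3
    have h4 := (comb_eq k1 _ _ _ _).2 ((comb_eq k2 _ _ _ _).1 h2)
    rw [← h3, h4] at s1
    exact s1.inj hι hW₁ hG₁ t1

end Pool.Agent.P.MP_a60a76_nt
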