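import Mathlib

/-!
Elementary formulas on a curve `y ^ 2 = x ^ 3 + a₂ x ^ 2 + a₄ x + a₆`.
-/

namespace Pool.Agent.P.MP_a60a76_nt

open WeierstrassCurve WeierstrassCurve.Affine

variable {F : Type} [Field F]

/-- The curve has the form `y ^ 2 = x ^ 3 + a x ^ 2 + b x + c`. -/
structure Short (W : Affine F) (a b c : F) : Prop where
  h1 : W.a₁ = 0
  h2 : W.a₂ = a
  h3 : W.a₃ = 0
  h4 : W.a₄ = b
  h6 : W.a₆ = c

/-- The cubic. -/
def cub {R : Type} [CommRing R] (a b c x : R) : R := x ^ 3 + a * x ^ 2 + b * x + c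

/-- `P` is the affine point `(x, y)`. -/
def At {W : Affine F} (P : W.Point) (x y : F) : Prop := ∃ h : W.Nonsingular x y, P = .some x y h

/-- `P` is an affine point with abscissa `x`. -/
def HasX {W : Affine F} (P : W.Point) (x : F) : Prop := ∃ y, At P x y

variable {W : Affine F} {a b c : F} {P Q : W.Point}

theorem exists_at (h : P ≠ 0) : ∃ x y, At P x y := by
  cases P with
  | zero => exact (h rfl).elim
  | some x y h' => exact ⟨x, y, h', rfl⟩

theorem At.ne_zero {x y : F} (h : At P x y) : P ≠ 0 := by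
  obtain ⟨h, rfl⟩ := h
  exact Point.some_ne_zero h

theorem HasX.ne_zero {x : F} (h : HasX P x) : P ≠ 0 := h.choose_spec.ne_zero

theorem At.unique {x y x' y' : F} (h : At P x y) (h' : At P x' y') : x = x' ∧ y = y' := by
  obtain ⟨h, rfl⟩ := h
  obtain ⟨h', e⟩ := h'
  exact Point.some.inj e

theorem HasX.unique {x x' : F} (h : HasX P x) (h' : HasX P x') : x = x' :=
  (h.choose_spec.unique h'.choose_spec).1

theorem At.ext {x y : F} (h : At P x y) (h' : At Q x y) : P = Q := by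
  obtain ⟨h, rfl⟩ := h
  obtain ⟨h', rfl⟩ := h'
  rfl

theorem At.eq (hW : Short W a b c) {x y : F} (h : At P x y) : y ^ 2 = cub a b c x := by
  have := (equation_iff ..).1 h.1.1
  rw [hW.h1, hW.h2, hW.h3, hW.h4, hW.h6] at this
  rw [cub, ← this]
  ring

theorem At.neg (hW : Short W a b c) {x y : F} (h : At P x y) : At (-P) x (-y) := by
  obtain ⟨h, rfl⟩ := h
  have e : W.negY x y = -y := by simp [negY, hW.h1, hW.h3]
  refine ⟨e ▸ (nonsingular_neg ..).2 h, ?_⟩
  rw [Point.neg_some]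
  congr 1

theorem HasX.neg (hW : Short W a b c) {x : F} (h : HasX P x) : HasX (-P) x :=
  ⟨_, h.choose_spec.neg hW⟩

theorem HasX.cases {x : F} (h : HasX P x) (h' : HasX Q x) : P = Q ∨ P = -Q := by
  obtain ⟨y, h, rfl⟩ := h
  obtain ⟨y', h', rfl⟩ := h'
  exact Point.X_eq_iff.1 rfl

theorem exists_point (hW : Short W a b c) {x y : F} (h : y ^ 2 = cub a b c x)
    (hy : 2 * y ≠ 0 ∨ 3 * x ^ 2 + 2 * a * x + b ≠ 0) : ∃ P : W.Point, At P x y := by
  have : W.Nonsingular x y := by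
    rw [nonsingular_iff', equation_iff, hW.h1, hW.h2, hW.h3, hW.h4, hW.h6]
    refine ⟨by rw [cub] at h; linear_combination h, ?_⟩
    rcases hy with hy | hy
    · right
      simpa using hy
    · left
      intro h0
      exact hy (by linear_combination -h0)
  exact ⟨_, this, rfl⟩

variable [DecidableEq F]

theorem At.add_ne (hW : Short W a b c) {x y x' y' l : F} (h : At P x y) (h' : At Q x' y')
    (hx : x ≠ x') (hl : l * (x - x') = y - y') :
    At (P + Q) (l ^ 2 - a - x - x') (l * (x - (l ^ 2 - a - x - x')) - y) := by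
  obtain ⟨h, rfl⟩ := h
  obtain ⟨h', rfl⟩ := h'
  have e : W.slope x x' y y' = l := by
    rw [slope_of_X_ne hx, div_eq_iff (sub_ne_zero.2 hx), hl]
  have e1 : W.addX x x' (W.slope x x' y y') = l ^ 2 - a - x - x' := by
    rw [e, addX, hW.h1, hW.h2]
    ring
  have e2 : W.addY x x' y (W.slope x x' y y') = l * (x - (l ^ 2 - a - x - x')) - y := by
    rw [addY, negY, negAddY, e1, e, hW.h1, hW.h3]
    ring
  rw [Point.add_of_X_ne hx, ← e2, ← e1]
  exact ⟨_, rfl⟩

theorem At.add_self (hW : Short W a b c) {x y l : F} (h : At P x y) (hy : 2 * y ≠ 0)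
    (hl : l * (2 * y) = 3 * x ^ 2 + 2 * a * x + b) :
    At (P + P) (l ^ 2 - a - x - x) (l * (x - (l ^ 2 - a - x - x)) - y) := by
  obtain ⟨h, rfl⟩ := h
  have e0 : W.negY x y = -y := by simp [negY, hW.h1, hW.h3]
  have hy' : y ≠ W.negY x y := by
    rw [e0]
    intro h0
    exact hy (by linear_combination h0)
  have e : W.slope x x y y = l := by
    rw [slope_of_Y_ne rfl hy', e0, hW.h1, hW.h2, hW.h4, div_eq_iff]
    · linear_combination -hl
    · intro h0
      exact hy (by linear_combination h0)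
  have e1 : W.addX x x (W.slope x x y y) = l ^ 2 - a - x - x := by
    rw [e, addX, hW.h1, hW.h2]
    ring
  have e2 : W.addY x x y (W.slope x x y y) = l * (x - (l ^ 2 - a - x - x)) - y := by
    rw [addY, negY, negAddY, e1, e, hW.h1, hW.h3]
    ring
  rw [Point.add_self_of_Y_ne hy', ← e2, ← e1]
  exact ⟨_, rfl⟩

theorem At.add_neg (hW : Short W a b c) {x y : F} (h : At P x y) (h' : At Q x (-y)) :
    P + Q = 0 := by
  rw [h'.ext (h.neg hW), add_neg_cancel]

theorem At.two_ne (hW : Short W a b c) {x y : F} (h : At P x y) (h2 : P + P ≠ 0) : 2 * y ≠ 0 := by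
  intro h0
  have : -y = y := by linear_combination -h0
  exact h2 (h.add_neg hW (this.symm ▸ h))

/-- The duplication relation. -/
def DblR (a b c x w : F) : Prop :=
  w * (4 * cub a b c x) = (x ^ 2 - b) ^ 2 - 4 * c * (2 * x + a)

/-- The differential addition relation. -/
def AddR (a b c u v w z : F) : Prop :=
  (w + z) * (u - v) ^ 2 = 2 * (u * v + b) * (u + v) + 4 * (a * u * v + c)

theorem HasX.dbl (hW : Short W a b c) {x : F} (h : HasX P x) (h2 : 4 * cub a b c x ≠ 0) :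
    ∃ w, HasX (P + P) w ∧ DblR a b c x w := by
  obtain ⟨y, h⟩ := h
  have e := h.eq hW
  have hy : 2 * y ≠ 0 := by
    intro h0
    exact h2 (by rw [← e]; linear_combination (2 * y) * h0)
  have hl := div_mul_cancel₀ (3 * x ^ 2 + 2 * a * x + b) hy
  refine ⟨_, ⟨_, h.add_self hW hy hl⟩, ?_⟩
  generalize (3 * x ^ 2 + 2 * a * x + b) / (2 * y) = l at *
  rw [DblR]
  rw [cub] at *
  linear_combination (l * (2 * y) + (3 * x ^ 2 + 2 * a * x + b)) * hl - 4 * l ^ 2 * e

theorem HasX.dbl' (hW : Short W a b c) {x w : F} (h : HasX P x) (h2 : 4 * cub a b c x ≠ 0)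
    (hw : DblR a b c x w) : HasX (P + P) w := by
  obtain ⟨w', h1, h3⟩ := h.dbl hW h2
  rw [DblR] at h3 hw
  rwa [mul_right_cancel₀ h2 (hw.trans h3.symm)]

theorem HasX.add (hW : Short W a b c) {u v z : F} (h : HasX P u) (h' : HasX Q v) (huv : u ≠ v)
    (hz : HasX (P - Q) z) : ∃ w, HasX (P + Q) w ∧ AddR a b c u v w z := by
  obtain ⟨y, h⟩ := h
  obtain ⟨y', h'⟩ := h'
  have e := h.eq hW
  have e' := h'.eq hW
  have hl := div_mul_cancel₀ (y - y') (sub_ne_zero.2 huv)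
  have hm := div_mul_cancel₀ (y - -y') (sub_ne_zero.2 huv)
  have h3 := h.add_ne hW (h'.neg hW) huv hm
  rw [← sub_eq_add_neg] at h3
  refine ⟨_, ⟨_, h.add_ne hW h' huv hl⟩, ?_⟩
  rw [hz.unique ⟨_, h3⟩]
  generalize (y - y') / (u - v) = l at *
  generalize (y - -y') / (u - v) = m at *
  rw [AddR]
  rw [cub] at *
  linear_combination (l * (u - v) + (y - y')) * hl + (m * (u - v) + (y - -y')) * hm + 2 * e + 2 * e'

theorem HasX.add' (hW : Short W a b c) {u v w z : F} (h : HasX P u) (h' : HasX Q v) (huv : u ≠ v)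
    (hz : HasX (P - Q) z) (hw : AddR a b c u v w z) : HasX (P + Q) w := by
  obtain ⟨w', h1, h3⟩ := h.add hW h' huv hz
  rw [AddR] at h3 hw
  have := mul_right_cancel₀ (pow_ne_zero 2 (sub_ne_zero.2 huv)) (hw.trans h3.symm)
  rwa [add_right_cancel this]

theorem ladderB (hW : Short W a b c) {x1 x2 x3 x5 x8 : F} (h1 : HasX P x1)
    (n1 : 4 * cub a b c x1 ≠ 0) (r2 : DblR a b c x1 x2) (n2 : x2 ≠ x1) (r3 : AddR a b c x2 x1 x3 x1)
    (n3 : x3 ≠ x2) (r5 : AddR a b c x3 x2 x5 x1) (n5 : x5 ≠ x3) (r8 : AddR a b c x5 x3 x8 x2)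
    (n8 : x8 ≠ x3) (r11 : AddR a b c x8 x3 x8 x5) : 19 • P = 0 := by
  have h2 : HasX (2 • P) x2 := by
    have := h1.dbl' hW n1 r2
    rwa [← two_nsmul] at this
  have h3 : HasX (3 • P) x3 := by
    have := h2.add' hW h1 n2 (by rwa [show 2 • P - P = P by abel]) r3
    rwa [show 2 • P + P = 3 • P by abel] at this
  have h5 : HasX (5 • P) x5 := by
    have := h3.add' hW h2 n3 (by rwa [show 3 • P - 2 • P = P by abel]) r5
    rwa [show 3 • P + 2 • P = 5 • P by abel] at this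
  have h8 : HasX (8 • P) x8 := by
    have := h5.add' hW h3 n5 (by rwa [show 5 • P - 3 • P = 2 • P by abel]) r8
    rwa [show 5 • P + 3 • P = 8 • P by abel] at this
  have h11 := h8.add' hW h3 n8 (by rwa [show 8 • P - 3 • P = 5 • P by abel]) r11
  rcases h11.cases h8 with h | h
  · exact (h3.ne_zero (add_eq_left.1 h)).elim
  · rw [show 19 • P = 8 • P + 3 • P + 8 • P by abel, h, neg_add_cancel]

/-- `P` is an affine point with abscissa `X / Z`. -/
def HX {W : Affine F} (P : W.Point) (X Z : F) : Prop := ∃ u, HasX P u ∧ X = u * Z ∧ Z ≠ 0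

theorem HX.dbl (hW : Short W a b c) {X Z X' Z' : F} (h : HX P X Z) (h2 : P + P ≠ 0)
    (hX : (X * X - b * (Z * Z)) * (X * X - b * (Z * Z)) -
      4 * c * (Z * Z * (Z * (2 * X + a * Z))) - X' = 0)
    (hZ : 4 * (Z * (X * X * (X + a * Z) + Z * Z * (b * X + c * Z))) - Z' = 0) :
    HX (P + P) X' Z' := by
  obtain ⟨u, hu, rfl, hZ0⟩ := h
  have h3 : 4 * cub a b c u ≠ 0 := by
    obtain ⟨y, hy⟩ := hu
    rw [← hy.eq hW, show 4 * y ^ 2 = (2 * y) ^ 2 by ring]
    exact pow_ne_zero 2 (hy.two_ne hW h2)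
  obtain ⟨w, hw, hr⟩ := hu.dbl hW h3
  have e : Z' = Z ^ 4 * (4 * cub a b c u) := by
    rw [cub]
    linear_combination -hZ
  refine ⟨w, hw, ?_, e ▸ mul_ne_zero (pow_ne_zero 4 hZ0) h3⟩
  rw [DblR] at hr
  rw [e]
  linear_combination -hX - Z ^ 4 * hr

theorem HX.add (hW : Short W a b c) {x X Z X' Z' X'' Z'' : F} (h : HX P X Z) (h' : HX Q X' Z')
    (hx : HasX (P - Q) x) (h2 : P + Q ≠ 0)
    (hX : 2 * ((X * X' + b * (Z * Z')) * (X * Z' + X' * Z)) +
      4 * ((Z * Z') * (a * (X * X') + c * (Z * Z'))) -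
      x * ((X * Z' - X' * Z) * (X * Z' - X' * Z)) - X'' = 0)
    (hZ : (X * Z' - X' * Z) * (X * Z' - X' * Z) - Z'' = 0) : HX (P + Q) X'' Z'' := by
  obtain ⟨u, hu, rfl, hZ0⟩ := h
  obtain ⟨v, hv, rfl, hZ0'⟩ := h'
  have huv : u ≠ v := by
    rintro rfl
    rcases hu.cases hv with h | h
    · exact hx.ne_zero (sub_eq_zero.2 h)
    · exact h2 (by rw [h, neg_add_cancel])
  obtain ⟨w, hw, hr⟩ := hu.add hW hv huv hx
  have e : Z'' = (Z * Z') ^ 2 * (u - v) ^ 2 := by linear_combination -hZ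
  refine ⟨w, hw, ?_, e ▸ mul_ne_zero (pow_ne_zero 2 (mul_ne_zero hZ0 hZ0'))
    (pow_ne_zero 2 (sub_ne_zero.2 huv))⟩
  rw [AddR] at hr
  rw [e]
  linear_combination -hX - (Z * Z') ^ 2 * hr

theorem HX.cross (hW : Short W a b c) {X Z X' Z' : F} (h : HX P X Z) (h' : HX Q X' Z')
    (h2 : P + Q = 0) : X * Z' - X' * Z = 0 := by
  obtain ⟨u, hu, rfl, -⟩ := h
  obtain ⟨v, hv, rfl, -⟩ := h'
  have := hv.neg hW
  rw [← eq_neg_of_add_eq_zero_left h2] at this
  rw [hu.unique this]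
  ring

theorem nsmul_ne_zero_of_lt {G : Type} [AddCommGroup G] {P : G} (h : 19 • P = 0) (h0 : P ≠ 0)
    {k : ℕ} (hk : Nat.Coprime k 19) : k • P ≠ 0 := by
  intro hk'
  have := Nat.dvd_gcd (addOrderOf_dvd_of_nsmul_eq_zero hk') (addOrderOf_dvd_of_nsmul_eq_zero h)
  rw [hk, Nat.dvd_one, AddMonoid.addOrderOf_eq_one_iff] at this
  exact h0 this

end Pool.Agent.P.MP_a60a76_nt
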