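import Pool.Agent.P.MP_a60a76_nt.Cong

/-!
The two curves are not isogenous: a Frobenius element above 29 fixes a point of order two on the
first curve and no point of order two on the second.
-/

namespace Pool.Agent.P.MP_a60a76_nt

open WeierstrassCurve WeierstrassCurve.Affine Polynomial

theorem no_hom {G H : Type} [AddCommGroup G] [AddCommGroup H] (ψ : G →+ H) (hfin : Finite ψ.ker)
    (θ : Module.End ℤ G) (τ : H →+ H) (hc : ∀ P, ψ (θ P) = 0 → τ (ψ P) = ψ P)
    (hfix : ∀ Q, 2 • Q = 0 → τ Q = Q → Q = 0) (hdiv : ∀ P : G, ∃ Q, 2 • Q = P)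
    (h2 : Finite {P : G // 2 • P = 0}) {P₀ : G} (h0 : 2 • P₀ = 0) (h1 : θ P₀ = 0) : P₀ = 0 := by
  have fix : ∀ (n : ℕ) Q, 2 ^ n • Q = 0 → τ Q = Q → Q = 0 := by
    intro n
    induction n with
    | zero => intro Q h _; simpa using h
    | succ n ih =>
      intro Q h h'
      exact hfix Q (ih _ (by rwa [← mul_nsmul', ← pow_succ]) (by rw [map_nsmul, h'])) h'
  have ker : ∀ (n m : ℕ) P, 2 ^ n • P = 0 → (θ ^ m) P = 0 → ψ P = 0 := by
    intro n m
    induction m with
    | zero => intro P _ h; rw [show P = 0 from h, map_zero]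
    | succ m ih =>
      intro P h h'
      have := ih (θ P) (by rw [← map_nsmul, h, map_zero]) (by rwa [pow_succ] at h')
      exact fix n _ (by rw [← map_nsmul, h, map_zero]) (hc P this)
  let N := {P : G // (∃ n : ℕ, 2 ^ n • P = 0) ∧ ∃ m : ℕ, (θ ^ m) P = 0}
  have : Finite N := Finite.of_injective
    (fun P : N => (⟨P.1, ker _ _ _ P.2.1.choose_spec P.2.2.choose_spec⟩ : ψ.ker))
    fun P Q h => Subtype.ext (congrArg Subtype.val h :)
  let d : N → N := fun P => ⟨2 • P.1, by
    obtain ⟨⟨n, hn⟩, m, hm⟩ := P.2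
    exact ⟨⟨n, by rw [smul_comm, hn, nsmul_zero]⟩, m, by rw [map_nsmul, hm, nsmul_zero]⟩⟩
  have hd : Function.Surjective d := by
    rintro ⟨y, ⟨n, hn⟩, m, hm⟩
    obtain ⟨x, rfl⟩ := hdiv y
    have ht : ∀ j : ℕ, 2 • (θ ^ j) ((θ ^ m) x) = 0 := fun j => by
      rw [← map_nsmul, ← map_nsmul, hm, map_zero]
    obtain ⟨a, b, hab, he⟩ : ∃ a b : ℕ, a < b ∧ (θ ^ a) ((θ ^ m) x) = (θ ^ b) ((θ ^ m) x) := by
      obtain ⟨a, b, hab, he⟩ := Finite.exists_ne_map_eq_of_infinite
        fun j : ℕ => (⟨_, ht j⟩ : {P : G // 2 • P = 0})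
      have he' := congrArg Subtype.val he
      rcases lt_or_gt_of_ne hab with h | h
      · exact ⟨a, b, h, he'⟩
      · exact ⟨b, a, h, he'.symm⟩
    obtain ⟨c, rfl⟩ := Nat.exists_eq_add_of_lt hab
    have hper : ∀ i : ℕ, (θ ^ (a + (c + 1) * i)) ((θ ^ m) x) = (θ ^ a) ((θ ^ m) x) := by
      intro i
      induction i with
      | zero => simp
      | succ i ih =>
        rw [show a + (c + 1) * (i + 1) = (c + 1) * i + (a + c + 1) by ring, pow_add,
          Module.End.mul_apply, ← he, ← Module.End.mul_apply, ← pow_add, add_comm, ih]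
    refine ⟨⟨x - (θ ^ (c * m)) ((θ ^ m) x), ⟨n + 1, ?_⟩, a + m, ?_⟩, Subtype.ext ?_⟩
    · rw [pow_succ, mul_nsmul', nsmul_sub, ht, sub_zero, hn]
    · rw [map_sub, ← Module.End.mul_apply (θ ^ (a + m)), ← pow_add,
        show a + m + c * m = a + (c + 1) * m by ring, hper, pow_add, Module.End.mul_apply, sub_self]
    · change 2 • (x - _) = 2 • x
      rw [nsmul_sub, ht, sub_zero]
  have := (Finite.injective_iff_surjective.2 hd) (a₁ := ⟨P₀, ⟨1, by simpa using h0⟩, 1, by simpa⟩)
    (a₂ := ⟨0, ⟨0, by simp⟩, 0, by simp⟩) (Subtype.ext (by simpa [d] using h0))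
  exact congrArg Subtype.val this

section

variable {F : Type} [Field F] {W : Affine F} {a b c : F}

theorem sep_of (hW : Short W a b c) (hΔ : W.Δ ≠ 0) {x : F} (hx : cub a b c x = 0) :
    3 * x ^ 2 + 2 * a * x + b ≠ 0 := by
  have h1 : W.Equation x 0 := by
    rw [equation_iff, hW.h1, hW.h2, hW.h3, hW.h4, hW.h6]
    rw [cub] at hx
    linear_combination -hx
  have h2 := ((nonsingular_iff' ..).1 ((equation_iff_nonsingular_of_Δ_ne_zero hΔ).1 h1)).2
  rw [hW.h1, hW.h2, hW.h3, hW.h4] at h2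
  intro h0
  rcases h2 with h | h
  · exact h (by linear_combination -h0)
  · exact h (by ring)

/-- The cubic polynomial. -/
noncomputable def cubP {R : Type} [CommRing R] (a b c : R) : R[X] :=
  X ^ 3 + C a * X ^ 2 + C b * X + C c

theorem cubP_monic {R : Type} [CommRing R] [Nontrivial R] (a b c : R) : (cubP a b c).Monic := by
  rw [cubP]
  monicity!

theorem cubP_deg {R : Type} [CommRing R] [Nontrivial R] (a b c : R) :
    (cubP a b c).natDegree = 3 := by
  rw [cubP]
  compute_degree!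

theorem cubP_eval {R : Type} [CommRing R] (a b c x : R) : (cubP a b c).eval x = cub a b c x := by
  simp [cubP, cub]

theorem cubP_aeval {R S : Type} [CommRing R] [CommRing S] [Algebra R S] (a b c : R) (x : S) :
    aeval x (cubP a b c) = cub (algebraMap R S a) (algebraMap R S b) (algebraMap R S c) x := by
  simp [cubP, cub]

theorem map_cub {R S : Type} [CommRing R] [CommRing S] (f : R →+* S) (a b c x : R) :
    f (cub a b c x) = cub (f a) (f b) (f c) (f x) := by
  simp [cub]

theorem vieta [IsAlgClosed F] (a b c : F) : ∃ u v w : F,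
    a = -(u + v + w) ∧ b = u * v + u * w + v * w ∧ c = -(u * v * w) := by
  obtain ⟨u, hu⟩ := IsAlgClosed.exists_root (cubP a b c) (by
    rw [degree_eq_natDegree (cubP_monic a b c).ne_zero, cubP_deg]
    norm_num)
  rw [IsRoot, cubP_eval, cub] at hu
  obtain ⟨v, hv⟩ := IsAlgClosed.exists_root (X ^ 2 + C (a + u) * X + C (b + u * (a + u))) (by
    have : (X ^ 2 + C (a + u) * X + C (b + u * (a + u))).degree = 2 := by compute_degree!
    rw [this]
    norm_num)
  simp only [IsRoot, eval_add, eval_pow, eval_X, eval_mul, eval_C] at hv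
  exact ⟨u, v, -a - u - v, by ring, by linear_combination hv, by linear_combination hu - u * hv⟩

variable [DecidableEq F]

theorem two_tors [CharZero F] (hW : Short W a b c) {P : W.Point} (h : 2 • P = 0) (h0 : P ≠ 0) :
    ∃ x, At P x 0 ∧ cub a b c x = 0 := by
  obtain ⟨x, y, hP⟩ := exists_at h0
  rw [two_nsmul] at h
  have h1 := hP.neg hW
  rw [← eq_neg_of_add_eq_zero_left h] at h1
  have h2 := (hP.unique h1).2
  obtain rfl : y = 0 := by linear_combination h2 / 2
  exact ⟨x, hP, by rw [← hP.eq hW]; ring⟩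

theorem finite_two [CharZero F] (hW : Short W a b c) : Finite {P : W.Point // 2 • P = 0} := by
  classical
  have h1 := finite_setOfPred_isRoot (cubP_monic a b c).ne_zero
  let g : F → W.Point := fun x => if h : ∃ P : W.Point, At P x 0 then h.choose else 0
  refine ((h1.image g).insert 0).subset (s := _) (t := {P : W.Point | 2 • P = 0}) fun P hP => ?_
  by_cases h0 : P = 0
  · exact .inl h0
  · obtain ⟨x, h2, h3⟩ := two_tors hW hP h0
    refine .inr ⟨x, by rw [Set.mem_ofPred_eq, IsRoot, cubP_eval, h3], ?_⟩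
    have h4 : ∃ P : W.Point, At P x 0 := ⟨P, h2⟩
    simp only [g, dif_pos h4]
    exact h4.choose_spec.ext h2

theorem two_div [CharZero F] [IsAlgClosed F] (hW : Short W a b c) (hΔ : W.Δ ≠ 0) (P : W.Point) :
    ∃ Q : W.Point, 2 • Q = P := by
  by_cases h0 : P = 0
  · exact ⟨0, by simp [h0]⟩
  obtain ⟨u, v, hP⟩ := exists_at h0
  obtain ⟨x, hx⟩ := IsAlgClosed.exists_root (X ^ 4 + C (-4 * u) * X ^ 3 +
    C (-2 * b - 4 * u * a) * X ^ 2 + C (-8 * c - 4 * u * b) * X +
      C (b ^ 2 - 4 * a * c - 4 * u * c)) (by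
    have : (X ^ 4 + C (-4 * u) * X ^ 3 + C (-2 * b - 4 * u * a) * X ^ 2 +
      C (-8 * c - 4 * u * b) * X + C (b ^ 2 - 4 * a * c - 4 * u * c)).degree = 4 := by
      compute_degree!
    rw [this]
    norm_num)
  simp only [IsRoot, eval_add, eval_pow, eval_X, eval_mul, eval_C] at hx
  have hr : DblR a b c x u := by
    rw [DblR, cub]
    linear_combination -hx
  have h1 : cub a b c x ≠ 0 := by
    intro h1
    refine pow_ne_zero 2 (sep_of hW hΔ h1) ?_
    rw [DblR, h1] at hr
    rw [cub] at h1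
    linear_combination 4 * (2 * x + a) * h1 - hr
  obtain ⟨y, hy⟩ := IsAlgClosed.exists_pow_nat_eq (cub a b c x) zero_lt_two
  obtain ⟨Q, hQ⟩ := exists_point hW hy (.inl (mul_ne_zero two_ne_zero (by
    rintro rfl
    exact h1 (by rw [← hy]; ring))))
  have h2 := HasX.dbl' hW ⟨y, hQ⟩ (mul_ne_zero (by norm_num) h1) hr
  rcases h2.cases ⟨v, hP⟩ with h | h
  · exact ⟨Q, by rw [two_nsmul, h]⟩
  · exact ⟨-Q, by rw [smul_neg, two_nsmul, h, neg_neg]⟩

end

theorem exists_free {M L : Type} [Field M] [Field L] [Algebra M L] [IsAlgClosed L] [Normal M L]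
    (a b c : M) (hn : ∀ x, cub a b c x ≠ 0)
    (hs : ∀ x : L, cub (algebraMap M L a) (algebraMap M L b) (algebraMap M L c) x = 0 →
      3 * x ^ 2 + 2 * algebraMap M L a * x + algebraMap M L b ≠ 0) :
    ∃ σ : L ≃ₐ[M] L, ∀ x : L,
      cub (algebraMap M L a) (algebraMap M L b) (algebraMap M L c) x = 0 → σ x ≠ x := by
  obtain ⟨u, v, w, ha, hb, hc⟩ := vieta (algebraMap M L a) (algebraMap M L b) (algebraMap M L c)
  have root : ∀ x : L, cub (algebraMap M L a) (algebraMap M L b) (algebraMap M L c) x = 0 ↔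
      x = u ∨ x = v ∨ x = w := by
    intro x
    rw [show cub (algebraMap M L a) (algebraMap M L b) (algebraMap M L c) x =
      (x - u) * ((x - v) * (x - w)) by rw [cub, ha, hb, hc]; ring]
    simp only [mul_eq_zero, sub_eq_zero]
  have hu := (root u).2 (.inl rfl)
  have hv := (root v).2 (.inr (.inl rfl))
  have hw := (root w).2 (.inr (.inr rfl))
  have huv : u ≠ v := fun h => hs u hu (by rw [ha, hb, ← h]; ring)
  have huw : u ≠ w := fun h => hs u hu (by rw [ha, hb, ← h]; ring)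
  have hvw : v ≠ w := fun h => hs v hv (by rw [ha, hb, ← h]; ring)
  have hirr : Irreducible (cubP a b c) :=
    irreducible_of_degree_le_three_of_not_isRoot (by simp [cubP_deg]) fun x hx =>
      hn x (by rwa [IsRoot, cubP_eval] at hx)
  have hmin : cubP a b c = minpoly M u :=
    minpoly.eq_of_irreducible_of_monic hirr (by rwa [cubP_aeval]) (cubP_monic ..)
  have alg : IsAlgebraic M u := Algebra.IsAlgebraic.isAlgebraic u
  obtain ⟨σ, h1⟩ := minpoly.exists_algEquiv_of_root' alg (x := v) (by rwa [← hmin, cubP_aeval])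
  obtain ⟨τ, h2⟩ := minpoly.exists_algEquiv_of_root' alg (x := w) (by rwa [← hmin, cubP_aeval])
  have perm : ∀ (σ : L ≃ₐ[M] L) x,
      cub (algebraMap M L a) (algebraMap M L b) (algebraMap M L c) x = 0 →
        σ x = u ∨ σ x = v ∨ σ x = w := by
    intro σ x hx
    rw [← root, ← cubP_aeval, aeval_algEquiv, AlgHom.comp_apply, cubP_aeval, hx, map_zero]
  have fin : ∀ σ : L ≃ₐ[M] L, σ u ≠ u → σ v ≠ v → σ w ≠ w → ∃ σ : L ≃ₐ[M] L, ∀ x : L,
      cub (algebraMap M L a) (algebraMap M L b) (algebraMap M L c) x = 0 → σ x ≠ x := by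
    intro σ h1 h2 h3
    refine ⟨σ, fun x hx => ?_⟩
    rcases (root x).1 hx with rfl | rfl | rfl <;> assumption
  have s1 : σ v ≠ v := fun h => huv (σ.injective (h1.trans h.symm))
  have t1 : τ w ≠ w := fun h => huw (τ.injective (h2.trans h.symm))
  by_cases s2 : σ w = w
  · by_cases t2 : τ v = v
    · have s3 : σ v = u := by
        rcases perm σ v hv with h | h | h
        · exact h
        · exact (s1 h).elim
        · exact (hvw (σ.injective (h.trans s2.symm))).elim
      have t3 : τ w = u := by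
        rcases perm τ w hw with h | h | h
        · exact h
        · exact (hvw (τ.injective (t2.trans h.symm))).elim
        · exact (t1 h).elim
      refine fin (τ.trans σ) ?_ ?_ ?_
      · rw [AlgEquiv.trans_apply, h2, s2]
        exact huw.symm
      · rw [AlgEquiv.trans_apply, t2, s3]
        exact huv
      · rw [AlgEquiv.trans_apply, t3, h1]
        exact hvw
    · exact fin τ (h2 ▸ huw.symm) t2 t1
  · exact fin σ (h1 ▸ huv.symm) s1 s2

instance : Fact (Nat.Prime 29) := ⟨by norm_num⟩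

theorem hensel (f : ℤ_[29][X]) (hf : f.Monic) (a : ℤ_[29]) (h1 : PadicInt.toZMod (f.eval a) = 0)
    (h2 : PadicInt.toZMod (f.derivative.eval a) ≠ 0) :
    ∃ z, f.eval z = 0 ∧ PadicInt.toZMod z = PadicInt.toZMod a := by
  rw [← RingHom.mem_ker, PadicInt.ker_toZMod] at h1
  rw [Ne, ← RingHom.mem_ker, PadicInt.ker_toZMod, IsLocalRing.mem_maximalIdeal, mem_nonunits_iff,
    not_not] at h2
  obtain ⟨z, h3, h4⟩ := HenselianRing.is_henselian (I := IsLocalRing.maximalIdeal ℤ_[29]) f hf a h1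
    (h2.map _)
  rw [← PadicInt.ker_toZMod, RingHom.mem_ker, map_sub, sub_eq_zero] at h4
  exact ⟨z, h3, h4⟩

theorem exists_padic : ∃ g : GaussianInt →+* ℚ_[29], (∃ x, cub (g A2) (g A4) (g A6) x = 0) ∧
    ∀ x, cub (g B2) (g B4) (g B6) x ≠ 0 := by
  obtain ⟨s, hs, hs'⟩ := hensel (X ^ 2 + 1) (by monicity!) 12 (by simp [map_ofNat]; rfl)
    (by simp [map_ofNat]; decide)
  let g : GaussianInt →+* ℤ_[29] := Zsqrtd.lift ⟨s, by
    simp only [eval_add, eval_pow, eval_X, eval_one] at hs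
    push_cast
    linear_combination hs⟩
  have hg : ∀ z : GaussianInt, PadicInt.toZMod (g z) = z.re + z.im * 12 := by
    intro z
    simp [g, hs', map_ofNat]
  obtain ⟨e, he, -⟩ := hensel (cubP (g A2) (g A4) (g A6)) (cubP_monic ..) 1
    (by rw [cubP_eval, map_cub, hg, hg, hg, map_one]; decide +kernel)
    (by
      simp only [cubP, eval_natCast, derivative_X_pow, derivative_mul, derivative_C,
        derivative_X, eval_add, eval_mul, eval_C, eval_pow, eval_X, eval_zero, eval_one, map_add,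
        map_mul, map_pow, map_one, map_zero, map_natCast, hg]
      decide +kernel)
  refine ⟨(algebraMap ℤ_[29] ℚ_[29]).comp g, ⟨algebraMap _ _ e, ?_⟩, fun x hx => ?_⟩
  · rw [cubP_eval] at he
    simpa only [map_cub, map_zero, RingHom.comp_apply] using
      congrArg (algebraMap ℤ_[29] ℚ_[29]) he
  · have h1 : IsIntegral ℤ_[29] x :=
      ⟨cubP (g B2) (g B4) (g B6), cubP_monic .., by rw [← aeval_def, cubP_aeval]; exact hx⟩
    obtain ⟨y, rfl⟩ := IsIntegrallyClosed.algebraMap_eq_of_integral h1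
    have h2 : cub (g B2) (g B4) (g B6) y = 0 :=
      IsFractionRing.injective ℤ_[29] ℚ_[29] (by rw [map_cub, map_zero]; exact hx)
    have h3 := congrArg PadicInt.toZMod h2
    rw [map_cub, hg, hg, hg, map_zero] at h3
    revert h3
    generalize PadicInt.toZMod y = t
    revert t
    decide +kernel

theorem disc₁ : curve₁.Δ ≠ 0 := by
  rw [curve₁, WeierstrassCurve.baseChange, map_Δ]
  refine (map_ne_zero_iff _ (IsFractionRing.injective _ _)).2 ?_
  decide +kernel

theorem disc₂ : curve₂.Δ ≠ 0 := by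
  rw [curve₂, WeierstrassCurve.baseChange, map_Δ]
  refine (map_ne_zero_iff _ (IsFractionRing.injective _ _)).2 ?_
  decide +kernel

theorem disc_bc {E : WeierstrassCurve Qi} (h : E.Δ ≠ 0) :
    (E.baseChange (AlgebraicClosure Qi)).toAffine.Δ ≠ 0 := by
  rw [WeierstrassCurve.baseChange, toAffine, map_Δ]
  exact (_root_.map_ne_zero _).2 h

theorem exists_frob : ∃ σ : AlgebraicClosure Qi ≃ₐ[Qi] AlgebraicClosure Qi,
    (∃ x, cub (emb A2) (emb A4) (emb A6) x = 0 ∧ σ x = x) ∧
      ∀ x, cub (emb B2) (emb B4) (emb B6) x = 0 → σ x ≠ x := by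
  obtain ⟨g, ⟨e, he⟩, hg⟩ := exists_padic
  have hinj : Function.Injective g := by
    rw [injective_iff_map_eq_zero]
    intro z hz
    have h1 : g (z.norm : GaussianInt) = 0 := by rw [Zsqrtd.norm_eq_mul_conj, map_mul, hz, zero_mul]
    rw [map_intCast, Int.cast_eq_zero] at h1
    exact GaussianInt.norm_eq_zero.1 h1
  let Ω := AlgebraicClosure ℚ_[29]
  let j : Qi →+* ℚ_[29] := IsFractionRing.lift hinj
  let _ : Algebra Qi Ω := ((algebraMap ℚ_[29] Ω).comp j).toAlgebra
  let ι : AlgebraicClosure Qi →ₐ[Qi] Ω := IsAlgClosed.lift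
  have hι : ∀ z, ι (emb z) = algebraMap ℚ_[29] Ω (g z) := fun z => by
    rw [← IsFractionRing.lift_algebraMap (K := Qi) hinj z]
    exact ι.commutes _
  let M : IntermediateField Qi (AlgebraicClosure Qi) :=
    ((algebraMap ℚ_[29] Ω).fieldRange.comap (ι : AlgebraicClosure Qi →+* Ω)).toIntermediateField
      fun x => ⟨j x, (ι.commutes x).symm⟩
  have hM : ∀ z, emb z ∈ M := fun z => M.algebraMap_mem _
  have : Normal M (AlgebraicClosure Qi) := Normal.tower_top_of_normal Qi M _
  obtain ⟨σ, hσ⟩ := exists_free (M := M) (L := AlgebraicClosure Qi) ⟨_, hM B2⟩ ⟨_, hM B4⟩ ⟨_, hM B6⟩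
    (by
      rintro x hx
      obtain ⟨y, hy⟩ := x.2
      have h1 := congrArg ((ι : AlgebraicClosure Qi →+* Ω).comp (algebraMap M _)) hx
      rw [map_cub, map_zero] at h1
      refine hg y ((algebraMap ℚ_[29] Ω).injective ?_)
      rw [map_cub, map_zero, ← hι, ← hι, ← hι, hy]
      exact h1)
    fun x hx => sep_of short₂ (disc_bc disc₂) hx
  refine ⟨σ.restrictScalars Qi, ?_, hσ⟩
  obtain ⟨u, v, w, ha, hb, hc⟩ := vieta (emb A2) (emb A4) (emb A6)
  have h1 := congrArg (algebraMap ℚ_[29] Ω) he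
  rw [map_cub, map_zero, ← hι, ← hι, ← hι, ha, hb, hc] at h1
  have h2 : (algebraMap ℚ_[29] Ω e - ι u) * ((algebraMap ℚ_[29] Ω e - ι v) *
      (algebraMap ℚ_[29] Ω e - ι w)) = 0 := by
    simp only [cub, map_neg, map_add, map_mul] at h1
    linear_combination h1
  simp only [mul_eq_zero, sub_eq_zero] at h2
  rcases h2 with h | h | h
  · exact ⟨u, by rw [ha, hb, hc, cub]; ring, σ.commutes ⟨u, e, h⟩⟩
  · exact ⟨v, by rw [ha, hb, hc, cub]; ring, σ.commutes ⟨v, e, h⟩⟩
  · exact ⟨w, by rw [ha, hb, hc, cub]; ring, σ.commutes ⟨w, e, h⟩⟩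

open scoped Classical

theorem not_related : ¬ HomRelated curve₁ curve₂ := by
  rintro ⟨ψ, hfin, hψ⟩
  obtain ⟨σ, ⟨e, he, hσe⟩, hσ⟩ := exists_frob
  obtain ⟨P₀, hP₀⟩ := exists_point short₁ (x := e) (y := 0) (by rw [he]; ring)
    (.inr (sep_of short₁ (disc_bc disc₁) he))
  have h0 : P₀ + P₀ = 0 := hP₀.add_neg short₁ (by rwa [neg_zero])
  have h1 : gal curve₁ σ P₀ = P₀ := by
    have := gal_at σ hP₀
    rw [hσe, map_zero] at this
    exact this.ext hP₀
  have hfix : ∀ Q : Pts curve₂, 2 • Q = 0 → gal curve₂ σ Q = Q → Q = 0 := by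
    intro Q h2 h3
    by_contra h4
    obtain ⟨x, h5, h6⟩ := two_tors short₂ h2 h4
    have := gal_at σ h5
    rw [h3] at this
    exact hσ x h6 (this.unique h5).1
  refine hP₀.ne_zero ?_
  rcases hψ σ with h | h
  · refine no_hom ψ hfin ((gal curve₁ σ).toIntLinearMap - 1) (gal curve₂ σ) (fun P hP => ?_) hfix
      (two_div short₁ (disc_bc disc₁)) (finite_two short₁) (by rwa [two_nsmul]) ?_
    · change ψ (gal curve₁ σ P - P) = 0 at hP
      rwa [map_sub, h, sub_eq_zero] at hP
    · change gal curve₁ σ P₀ - P₀ = 0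
      rw [h1, sub_self]
  · refine no_hom ψ hfin ((gal curve₁ σ).toIntLinearMap + 1) (gal curve₂ σ) (fun P hP => ?_) hfix
      (two_div short₁ (disc_bc disc₁)) (finite_two short₁) (by rwa [two_nsmul]) ?_
    · change ψ (gal curve₁ σ P + P) = 0 at hP
      rwa [map_add, h, neg_add_eq_zero] at hP
    · change gal curve₁ σ P₀ + P₀ = 0
      rw [h1, h0]

end Pool.Agent.P.MP_a60a76_nt
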