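import Pool.Agent.P.MP_a60a76_nt.ChkB

/-!
Meaning of the computations modulo the prime.
-/

namespace Pool.Agent.P.MP_a60a76_nt

open WeierstrassCurve WeierstrassCurve.Affine

theorem pp_prime : Nat.Prime pp := by norm_num

instance : Fact (Nat.Prime pp) := ⟨pp_prime⟩

variable {k : Type} [Field k] [CharP k pp]

/-- Horner evaluation of a list of natural numbers. -/
def evK (x : k) : List ℕ → k
  | [] => 0
  | c :: l => c + x * evK x l

theorem rp_eq {h : GaussianInt →+* k} (hi : h ⟨0, 1⟩ = (154435 : ℕ)) (z : GaussianInt) :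
    h z = rp z := by
  have h1 : z = (z.re : GaussianInt) + z.im * ⟨0, 1⟩ := by ext <;> simp
  have h2 : 0 ≤ (z.re + z.im * 154435) % (pp : ℤ) := Int.emod_nonneg _ (by norm_num)
  have h3 : ((rp z : ℕ) : k) = (((z.re + z.im * 154435) % (pp : ℤ) : ℤ) : k) := by
    rw [rp, ← Int.cast_natCast, Int.toNat_of_nonneg h2]
  rw [h3, ← CharP.intCast_eq_intCast_mod k pp]
  conv_lhs => rw [h1, map_add, map_mul, hi, map_intCast, map_intCast]
  push_cast
  rfl

theorem ev_eq {h : GaussianInt →+* k} (hi : h ⟨0, 1⟩ = (154435 : ℕ)) (x : k)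
    (l : List GaussianInt) : ev h x l = evK x (l.map rp) := by
  induction l with
  | nil => rfl
  | cons c l ih => rw [ev, List.map_cons, evK, ih, rp_eq hi]

theorem evN_eq (x : ℕ) (l : List ℕ) : (evN x l : k) = evK (x : k) l := by
  induction l with
  | nil => simp [evN, evK]
  | cons c l ih => rw [evN, fN_eq, cast_mod, evK, ← ih]; push_cast; rfl

theorem evN_lt (x : ℕ) (l : List ℕ) : evN x l < pp := by
  cases l with
  | nil => simp [evN]
  | cons c l => rw [evN, fN_eq]; exact Nat.mod_lt _ (by norm_num)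

theorem ml_eq {a : ℕ} (ha : a < pp) (x : k) (q : ℕ) (l : List ℕ) :
    evK x (ml a q l) = q + (x - a) * evK x l := by
  induction l generalizing q with
  | nil => simp [ml, evK]
  | cons c l ih =>
    rw [ml, fN_eq, evK, ih, cast_mod, evK, Nat.cast_add, Nat.cast_mul, cast_sub' ha.le]
    ring

theorem prodL_root (x : k) (l : List Row) (hl : ∀ e ∈ l, e.x < pp) (h : evK x (prodL l) = 0) :
    ∃ e ∈ l, x = e.x := by
  induction l with
  | nil =>
    simp only [prodL, evK, mul_zero, add_zero] at h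
    rw [CharP.cast_eq_zero_iff k pp] at h
    norm_num at h
  | cons e l ih =>
    rw [prodL, ml_eq (hl e (by simp)), Nat.cast_zero, zero_add, mul_eq_zero] at h
    rcases h with h | h
    · exact ⟨e, by simp, sub_eq_zero.1 h⟩
    · obtain ⟨f, hf, hx⟩ := ih (fun f hf => hl f (by simp [hf])) h
      exact ⟨f, by simp [hf], hx⟩

variable [DecidableEq k] {W : Affine k}

theorem tab_rep {A B : ℕ} {c : k} (hA : A < pp) (hW : Short W A B c) {s t : ℕ × ℕ} {R S : W.Point}
    (hs : Rep pp (some s) R) (ht : Rep pp (some t) S) (a b : ℕ) :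
    Rep pp (tab A B s t a b) (a • R + b • S) :=
  padd_rep (by norm_num) hA hW (psm_rep (by norm_num) hA hW hs a) (psm_rep (by norm_num) hA hW ht b)

omit [DecidableEq k] in
theorem exists_rep {A B C : ℕ} (hW : Short W A B C) {x y : ℕ} (hx : x < pp) (hy : y < pp)
    (hy0 : y ≠ 0) (h : y * y % pp = (x * x * x + A * x * x + B * x + C) % pp) :
    ∃ R : W.Point, Rep pp (some (x, y)) R := by
  have h1 := congrArg (Nat.cast : ℕ → k) h
  rw [cast_mod, cast_mod] at h1
  push_cast at h1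
  have h2 : (2 : k) * y ≠ 0 := by
    refine mul_ne_zero ?_ fun h0 => hy0 (cast_inj (k := k) hy (by norm_num) (by simpa using h0))
    intro h0
    have : ((2 : ℕ) : k) = 0 := by exact_mod_cast h0
    rw [CharP.cast_eq_zero_iff k pp] at this
    norm_num at this
  obtain ⟨R, hR⟩ := exists_point hW (x := x) (y := y) (by rw [cub]; linear_combination h1) (.inl h2)
  exact ⟨R, hR, hx, hy⟩

theorem ker_spec {A B C : ℕ} (hA : A < pp) (hW : Short W A B C) {s t : ℕ × ℕ}
    (hc : chkKer A B C s t = true) (h1 : s.1 < pp) (h2 : s.2 < pp) (h3 : s.2 ≠ 0) (h4 : t.1 < pp)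
    (h5 : t.2 < pp) (h6 : t.2 ≠ 0) : ∃ R S : W.Point, Rep pp (some s) R ∧ Rep pp (some t) S ∧
      ∀ u v : ℤ, u • R + v • S = 0 ↔ 19 ∣ u ∧ 19 ∣ v := by
  simp only [chkKer, Bool.and_eq_true, beq_iff_eq, List.all_eq_true, List.mem_range,
    Bool.or_eq_true, Option.isNone_iff_eq_none] at hc
  obtain ⟨⟨⟨⟨c1, c2⟩, c3⟩, c4⟩, c5⟩ := hc
  obtain ⟨R, hR⟩ := exists_rep hW h1 h2 h3 c1
  obtain ⟨S, hS⟩ := exists_rep hW h4 h5 h6 c2
  have r19 : 19 • R = 0 := by
    have := psm_rep (by norm_num) hA hW hR 19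
    rwa [c3] at this
  have s19 : 19 • S = 0 := by
    have := psm_rep (by norm_num) hA hW hS 19
    rwa [c4] at this
  have key : ∀ (T : W.Point), 19 • T = 0 → ∀ u : ℤ, u • T = (u % 19).toNat • T := by
    intro T hT u
    rw [← natCast_zsmul, Int.toNat_of_nonneg (Int.emod_nonneg _ (by norm_num))]
    conv_lhs => rw [← Int.emod_add_mul_ediv u 19, add_zsmul, mul_comm, mul_zsmul]
    have : (19 : ℤ) • T = 0 := by exact_mod_cast hT
    rw [this, zsmul_zero, add_zero]
  refine ⟨R, S, hR, hS, fun u v => ?_⟩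
  rw [key R r19 u, key S s19 v]
  constructor
  · intro h0
    have h7 := tab_rep hA hW hR hS (u % 19).toNat (v % 19).toNat
    rcases c5 (u % 19).toNat (by omega) (v % 19).toNat (by omega) with h | h
    · obtain ⟨⟨x, y⟩, e⟩ := Option.isSome_iff_exists.1 h
      rw [e] at h7
      exact (h7.1.ne_zero h0).elim
    · omega
  · rintro ⟨hu, hv⟩
    rw [show (u % 19).toNat = 0 by omega, show (v % 19).toNat = 0 by omega]
    simp

/-- The facts about a row of the table. -/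
structure RowOk {W₁ W₂ : Affine k} (R S : W₁.Point) (R' S' : W₂.Point) (h : GaussianInt →+* k)
    (e : Row) : Prop where
  at1 : At (e.a • R + e.b • S) e.x e.y
  at2 : At (e.a • R' + e.b • S') e.u e.v
  ltx : e.x < pp
  ltu : e.u < pp
  d0 : ev h e.x dL ≠ 0
  n1 : ev h e.x nL1 = e.u * ev h e.x dL
  m : ev h e.x mL = e.y * e.v * ev h e.x dL
  y0 : 2 * (e.y : k) ≠ 0
  v0 : 2 * (e.v : k) ≠ 0
  n2 : ev h e.x nL2 ≠ ev h e.x nL1
  n3 : ev h e.x nL3 ≠ ev h e.x nL2
  n5 : ev h e.x nL5 ≠ ev h e.x nL3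
  n8 : ev h e.x nL8 ≠ ev h e.x nL3

theorem table {h : GaussianInt →+* k} (hi : h ⟨0, 1⟩ = (154435 : ℕ)) {W₁ W₂ : Affine k}
    (hW₁ : Short W₁ (h A2) (h A4) (h A6)) (hW₂ : Short W₂ (h B2) (h B4) (h B6)) :
    ∃ (R S : W₁.Point) (R' S' : W₂.Point),
      (∀ u v : ℤ, u • R + v • S = 0 ↔ 19 ∣ u ∧ 19 ∣ v) ∧
      (∀ u v : ℤ, u • R' + v • S' = 0 ↔ 19 ∣ u ∧ 19 ∣ v) ∧
      (∀ e ∈ tb, RowOk R S R' S' h e) ∧ ∀ x, ev h x gL = 0 → ∃ e ∈ tb, x = e.x := by
  rw [rp_eq hi, rp_eq hi, rp_eq hi] at hW₁ hW₂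
  rw [show rp A2 = 1647753 by decide +kernel, show rp A4 = 119334 by decide +kernel,
    show rp A6 = 1210526 by decide +kernel] at hW₁
  rw [show rp B2 = 154434 by decide +kernel, show rp B4 = 249540 by decide +kernel,
    show rp B6 = 571098 by decide +kernel] at hW₂
  obtain ⟨R, S, hR, hS, k1⟩ := ker_spec (by norm_num) hW₁ ker_1 (by norm_num) (by norm_num)
    (by norm_num) (by norm_num) (by norm_num) (by norm_num)
  obtain ⟨R', S', hR', hS', k2⟩ := ker_spec (by norm_num) hW₂ ker_2 (by norm_num) (by norm_num)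
    (by norm_num) (by norm_num) (by norm_num) (by norm_num)
  have two : (2 : k) ≠ 0 := by
    intro h0
    have : ((2 : ℕ) : k) = 0 := by exact_mod_cast h0
    rw [CharP.cast_eq_zero_iff k pp] at this
    norm_num at this
  have hrow : ∀ e ∈ tb, RowOk R S R' S' h e := by
    intro e he
    have hc := List.all_eq_true.1 row_tb e he
    simp only [chkRow, fN_eq, Bool.and_eq_true, beq_iff_eq, Bool.not_eq_true', Nat.beq_eq,
      ← Bool.not_eq_true] at hc
    obtain ⟨⟨t1, t2⟩, ⟨⟨⟨⟨⟨⟨⟨⟨c1, c2⟩, c3⟩, c4⟩, c5⟩, c6⟩, c7⟩, c8⟩, c9⟩⟩ := hc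
    have a1 := tab_rep (by norm_num) hW₁ hR hS e.a e.b
    have a2 := tab_rep (by norm_num) hW₂ hR' hS' e.a e.b
    rw [t1] at a1
    rw [t2] at a2
    have ne : ∀ l l', evN e.x l ≠ evN e.x l' → evK (e.x : k) l ≠ evK (e.x : k) l' := by
      intro l l' hne h0
      rw [← evN_eq, ← evN_eq] at h0
      exact hne (cast_inj (evN_lt _ _) (evN_lt _ _) h0)
    refine ⟨a1.1, a2.1, a1.2.1, a2.2.1, ?_, ?_, ?_, ?_, ?_, ?_, ?_, ?_, ?_⟩
    · rw [ev_eq hi, red_d]
      exact ne dP [] c1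
    · rw [ev_eq hi, ev_eq hi, red_1, red_d, ← evN_eq, ← evN_eq, c2, cast_mod, Nat.cast_mul]
    · rw [ev_eq hi, ev_eq hi, red_m, red_d, ← evN_eq, ← evN_eq, c3, cast_mod, Nat.cast_mul,
        Nat.cast_mul]
    · exact mul_ne_zero two fun h0 => c4 (cast_inj (k := k) a1.2.2 (by norm_num) (by simpa using h0))
    · exact mul_ne_zero two fun h0 => c5 (cast_inj (k := k) a2.2.2 (by norm_num) (by simpa using h0))
    · rw [ev_eq hi, ev_eq hi, red_2, red_1]
      exact ne _ _ c6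
    · rw [ev_eq hi, ev_eq hi, red_3, red_2]
      exact ne _ _ c7
    · rw [ev_eq hi, ev_eq hi, red_5, red_3]
      exact ne _ _ c8
    · rw [ev_eq hi, ev_eq hi, red_8, red_3]
      exact ne _ _ c9
  refine ⟨R, S, R', S', k1, k2, hrow, fun x hx => ?_⟩
  rw [ev_eq hi, red_g, ← prod_tb] at hx
  exact prodL_root x tb (fun e he => (hrow e he).ltx) hx

theorem pair_spec {e f : Row} (he : e ∈ tb) (hf : f ∈ tb) (h : e.u = f.u) : e.x = f.x := by
  have := List.all_eq_true.1 (List.all_eq_true.1 pair_tb e he) f hf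
  simpa [h] using this

end Pool.Agent.P.MP_a60a76_nt
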